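import Pool.Agent.TH444.TW.Cls
import Pool.Agent.TH377.IG.RegAll

/-!
# Towers with steps in the class
-/

set_option autoImplicit false

namespace Pool.Agent.TH444.TW

open Pool.Agent.H391R2 Pool.Agent.H391R2.T4
open Pool.Agent.TH15.IGP (StepSol Lim)

/-- All groups of the tower are finite. -/
theorem tower_finite {K : Type} [Field K] (W : ℕ → Type) [∀ i, Group (W i)]
    (p : ∀ i, W (i + 1) →* W i) (hp : ∀ i, Cls K (p i)) (h0 : Finite (W 0)) :
    ∀ i, Finite (W i) := by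
  intro i
  induction i with
  | zero => exact h0
  | succ i ih => exact (hp i).finite

/-- Regular towers over `K(t)`, for every field `K`. -/
theorem cls_regular (K L : Type) [Field K] [Field L] [Algebra K L] [FiniteDimensional K L]
    [IsGalois K L] (W : ℕ → Type) [∀ i, Group (W i)] (p : ∀ i, W (i + 1) →* W i)
    (hp : ∀ i, Cls K (p i)) (e₀ : W 0 ≃* (L ≃ₐ[K] L)) :
    ∃ (F : Type) (_ : Field F) (_ : Algebra (RatFunc K) F) (_ : Algebra L F)
      (_ : Algebra K F) (_ : IsScalarTower K (RatFunc K) F) (_ : IsScalarTower K L F)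
      (_ : IsGalois (RatFunc K) F) (γ : (F ≃ₐ[RatFunc K] F) ≃* Lim p),
      (∀ i, IsOpen {σ : F ≃ₐ[RatFunc K] F | (γ σ).1 i = 1}) ∧
      (∀ (σ : F ≃ₐ[RatFunc K] F) (x : L),
        σ (algebraMap L F x) = algebraMap L F (e₀ ((γ σ).1 0) x)) ∧
      ∀ y : F, IsAlgebraic L y → y ∈ Set.range (algebraMap L F) := by
  have hfin := tower_finite W p hp (Finite.of_equiv _ e₀.symm.toEquiv)
  refine Pool.Agent.TH377.IG.tower_regular K L
    (fun Ω _ _ _ _ _ _ j => Pool.Agent.TH377.IG.regStep K L Ω j) W p (fun i => ?_) e₀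
  intro M _ _ _ _ ε
  have := infinite_ratFunc K
  exact (hp i).rsk (RatFunc K) M ε

/-- Towers over fields with the specialisation property. -/
theorem cls_spec {K : Type} [Field K] [Infinite K] (hK : Pool.Agent.TH377.IG.SpecProp K)
    (W : ℕ → Type) [∀ i, Group (W i)] (p : ∀ i, W (i + 1) →* W i) (hp : ∀ i, Cls K (p i))
    (L : Type) [Field L] [Algebra K L] [FiniteDimensional K L] [IsGalois K L]
    (e₀ : W 0 ≃* (L ≃ₐ[K] L)) :
    ∃ (F : Type) (_ : Field F) (_ : Algebra K F) (_ : Algebra L F) (_ : IsScalarTower K L F)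
      (_ : IsGalois K F) (γ : (F ≃ₐ[K] F) ≃* Lim p),
      (∀ i, IsOpen {σ : F ≃ₐ[K] F | (γ σ).1 i = 1}) ∧
      ∀ (σ : F ≃ₐ[K] F) (x : L),
        σ (algebraMap L F x) = algebraMap L F (e₀ ((γ σ).1 0) x) := by
  have hfin := tower_finite W p hp (Finite.of_equiv _ e₀.symm.toEquiv)
  exact Pool.Agent.TH377.IG.tower_spec hK W p (fun i M _ _ _ _ ε => (hp i).rsk K M ε) L e₀

/-- Towers over Hilbertian fields. -/
theorem cls_hilb {K : Type} [Field K] (hK : HilbField K)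
    (W : ℕ → Type) [∀ i, Group (W i)] (p : ∀ i, W (i + 1) →* W i) (hp : ∀ i, Cls K (p i))
    (L : Type) [Field L] [Algebra K L] [FiniteDimensional K L] [IsGalois K L]
    (e₀ : W 0 ≃* (L ≃ₐ[K] L)) :
    ∃ (F : Type) (_ : Field F) (_ : Algebra K F) (_ : Algebra L F) (_ : IsScalarTower K L F)
      (_ : IsGalois K F) (γ : (F ≃ₐ[K] F) ≃* Lim p),
      (∀ i, IsOpen {σ : F ≃ₐ[K] F | (γ σ).1 i = 1}) ∧
      ∀ (σ : F ≃ₐ[K] F) (x : L),
        σ (algebraMap L F x) = algebraMap L F (e₀ ((γ σ).1 0) x) := by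
  have := infinite_of_hilb hK
  exact cls_spec (Pool.Agent.TH377.IG.spec_hilb hK) W p hp L e₀

/-- Towers over rational function fields over finite fields. -/
theorem cls_ratFunc (κ : Type) [Field κ] [Finite κ]
    (W : ℕ → Type) [∀ i, Group (W i)] (p : ∀ i, W (i + 1) →* W i)
    (hp : ∀ i, Cls (RatFunc κ) (p i))
    (L : Type) [Field L] [Algebra (RatFunc κ) L] [FiniteDimensional (RatFunc κ) L]
    [IsGalois (RatFunc κ) L] (e₀ : W 0 ≃* (L ≃ₐ[RatFunc κ] L)) :
    ∃ (F : Type) (_ : Field F) (_ : Algebra (RatFunc κ) F) (_ : Algebra L F)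
      (_ : IsScalarTower (RatFunc κ) L F) (_ : IsGalois (RatFunc κ) F)
      (γ : (F ≃ₐ[RatFunc κ] F) ≃* Lim p),
      (∀ i, IsOpen {σ : F ≃ₐ[RatFunc κ] F | (γ σ).1 i = 1}) ∧
      ∀ (σ : F ≃ₐ[RatFunc κ] F) (x : L),
        σ (algebraMap L F x) = algebraMap L F (e₀ ((γ σ).1 0) x) := by
  have := infinite_ratFunc κ
  exact cls_spec (Pool.Agent.TH377.IG.spec_ratFunc κ) W p hp L e₀

end Pool.Agent.TH444.TW
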