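import Pool.Agent.TH444.TW.CycAll

/-!
# Abelian kernels
-/

set_option autoImplicit false

namespace Pool.Agent.TH444.TW

open Pool.Agent.H391R2 Pool.Agent.H391R2.T4

theorem card_mzmod (m : ℕ) : Nat.card (Multiplicative (ZMod m)) = m := by
  change Nat.card (ZMod m) = m
  exact Nat.card_zmod _

theorem loc_cyc (m : ℕ) (hm : 0 < m) :
    Loc (1 : Unit →* MulAut (Multiplicative (ZMod m))) := by
  intro K' M' _ _ _ _ _ _ β
  have : NeZero m := ⟨hm.ne'⟩
  exact reg_prod _ (fun g => rfl) (cycReg_all K' m hm _ (card_mzmod m))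

theorem exists_powHom {A : Type} [CommGroup A] [Finite A] (a : A) :
    ∃ f : Multiplicative (ZMod (Nat.card A)) →* A, f (Multiplicative.ofAdd 1) = a := by
  let g : ZMod (Nat.card A) →+ Additive A := ZMod.lift (Nat.card A)
    ⟨zmultiplesHom (Additive A) (Additive.ofMul a), by
      rw [zmultiplesHom_apply, natCast_zsmul, ← ofMul_pow, pow_card_eq_one']
      rfl⟩
  refine ⟨AddMonoidHom.toMultiplicativeLeft g, ?_⟩
  have h1 : g 1 = Additive.ofMul a := by
    have h2 := ZMod.lift_coe (Nat.card A) ⟨zmultiplesHom (Additive A) (Additive.ofMul a), by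
      rw [zmultiplesHom_apply, natCast_zsmul, ← ofMul_pow, pow_card_eq_one']
      rfl⟩ (1 : ℤ)
    rw [Int.cast_one] at h2
    refine h2.trans ?_
    change (1 : ℤ) • (Additive.ofMul a) = _
    rw [one_zsmul]
  change Additive.toMul (g 1) = a
  rw [h1]
  rfl

/-- Split embedding problems with finite abelian kernel, external form. -/
theorem ab_ext {W A : Type} [Group W] [Finite W] [CommGroup A] [Finite A] (φ : W →* MulAut A) :
    RS (SemidirectProduct.rightHom : A ⋊[φ] W →* W) := by
  classical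
  let m := Nat.card A
  have hm : 0 < m := Nat.card_pos
  have : NeZero m := ⟨hm.ne'⟩
  let C := Multiplicative (ZMod m)
  let k := Nat.card (A × W)
  let eΩ : A × W ≃ Fin k := Finite.equivFin (A × W)
  let perm : W →* Equiv.Perm (Fin k) := MonoidHom.mk'
    (fun w => eΩ.symm.trans ((Equiv.prodCongr (Equiv.refl A) (Equiv.mulLeft w)).trans eΩ)) (by
      intro w w'
      apply Equiv.ext
      intro i
      change eΩ ((eΩ.symm i).1, w * w' * (eΩ.symm i).2) =
        eΩ ((eΩ.symm (eΩ ((eΩ.symm i).1, w' * (eΩ.symm i).2))).1,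
          w * (eΩ.symm (eΩ ((eΩ.symm i).1, w' * (eΩ.symm i).2))).2)
      rw [Equiv.symm_apply_apply, mul_assoc])
  have hperm : ∀ (w : W) (i : Fin k), eΩ.symm (perm w i) = ((eΩ.symm i).1, w * (eΩ.symm i).2) :=
    fun w i => eΩ.symm_apply_apply _
  let ψ : W →* Wr Unit k := SemidirectProduct.inr.comp perm
  choose h hh using fun a : A => exists_powHom a
  let θ : Unit →* MulAut C := 1
  let Φ : (Fin k → C) →* A := MonoidHom.mk'
    (fun f => ∏ i, φ (eΩ.symm i).2 (h (eΩ.symm i).1 (f i))) (by
      intro f g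
      rw [← Finset.prod_mul_distrib]
      refine Finset.prod_congr rfl fun i _ => ?_
      rw [Pi.mul_apply, map_mul, map_mul])
  let q : PowSd θ ψ →* A ⋊[φ] W := SemidirectProduct.map Φ (MonoidHom.id W) (by
    intro w
    apply MonoidHom.ext
    intro f
    change ∏ i, φ (eΩ.symm i).2 (h (eΩ.symm i).1 (f ((perm w)⁻¹ i))) =
      φ w (∏ i, φ (eΩ.symm i).2 (h (eΩ.symm i).1 (f i)))
    rw [← Equiv.prod_comp (perm w), map_prod]
    refine Finset.prod_congr rfl fun i _ => ?_
    rw [hperm, perm_inv_self, map_mul]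
    rfl)
  have hq : Function.Surjective q := by
    rintro ⟨a, w⟩
    refine ⟨⟨Pi.mulSingle (eΩ (a, 1)) (Multiplicative.ofAdd 1), w⟩, ?_⟩
    apply SemidirectProduct.ext
    · change ∏ i, φ (eΩ.symm i).2 (h (eΩ.symm i).1
        ((Pi.mulSingle (eΩ (a, 1)) (Multiplicative.ofAdd 1) : Fin k → C) i)) = a
      rw [Fintype.prod_eq_single (eΩ (a, 1)) (fun i hi => by
        rw [Pi.mulSingle_eq_of_ne hi, map_one, map_one]), Pi.mulSingle_eq_same,
        Equiv.symm_apply_apply, hh, map_one]
      rfl
    · rfl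
  have hfinC : Finite C := inferInstanceAs (Finite (Multiplicative (ZMod m)))
  exact RS.quot (p'' := (SemidirectProduct.rightHom : PowSd θ ψ →* W)) q hq (fun x => rfl)
    (pow_rs θ ψ (loc_cyc m hm))

/-- **Split embedding problems with finite abelian kernel** have regular solutions. -/
theorem ab_rs {W W' : Type} [Group W] [Finite W] [Group W'] (p : W' →* W) (s : W →* W')
    (hs : ∀ w, p (s w) = w) [Finite p.ker]
    (hc : ∀ x y : W', p x = 1 → p y = 1 → x * y = y * x) : RS p := by
  let _ : CommGroup p.ker :=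
    { (inferInstance : Group p.ker) with
      mul_comm := fun x y => Subtype.ext (hc x.1 y.1 x.2 y.2) }
  let φ : W →* MulAut p.ker := (MulAut.conjNormal (H := p.ker)).comp s
  obtain ⟨e, he⟩ := exists_sdEquiv φ p p.ker.subtype s (Subgroup.subtype_injective _)
    (Subgroup.range_subtype _) hs (fun w x => by
      change s w * x.1 = (s w * x.1 * (s w)⁻¹) * s w
      rw [inv_mul_cancel_right])
  refine RS.congr (ab_ext φ) e.symm fun x => ?_
  obtain ⟨y, rfl⟩ := e.surjective x
  rw [MulEquiv.symm_apply_apply]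
  exact (he y).symm

end Pool.Agent.TH444.TW
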