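import Pool.Agent.TH444.TW.AlbA

/-!
# Affine automorphisms of `M(X)`
-/

set_option autoImplicit false

namespace Pool.Agent.TH444.TW

open Pool.Agent.H391R2.T4 (RegSol)
open Finset

section aut

variable {K M : Type} [Field K] [Field M] [Algebra K M]

theorem ratFunc_aut_ext' (σ τ : RatFunc M ≃ₐ[K] RatFunc M)
    (hC : ∀ a : M, σ (algebraMap M (RatFunc M) a) = τ (algebraMap M (RatFunc M) a))
    (hX : σ RatFunc.X = τ RatFunc.X) : σ = τ := by
  apply AlgEquiv.ext
  intro x
  have h1 : ∀ p : Polynomial M, σ (algebraMap _ _ p) = τ (algebraMap _ _ p) := by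
    have h2 : ((σ : RatFunc M →+* RatFunc M).comp (algebraMap (Polynomial M) (RatFunc M))) =
        ((τ : RatFunc M →+* RatFunc M).comp (algebraMap (Polynomial M) (RatFunc M))) := by
      apply Polynomial.ringHom_ext
      · intro a
        exact hC a
      · change σ (algebraMap (Polynomial M) (RatFunc M) Polynomial.X) =
          τ (algebraMap (Polynomial M) (RatFunc M) Polynomial.X)
        rw [RatFunc.algebraMap_X, hX]
    intro p
    exact DFunLike.congr_fun h2 p
  obtain ⟨p, q, -, rfl⟩ := IsFractionRing.div_surjective (A := Polynomial M) x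
  rw [map_div₀, map_div₀, h1, h1]

/-- `X ↦ X + β`, and `σ` on the coefficients. -/
noncomputable def affAut (σ : M ≃ₐ[K] M) (β : M) : RatFunc M ≃ₐ[K] RatFunc M :=
  IsFractionRing.fieldEquivOfAlgEquiv K (RatFunc M) (RatFunc M)
    ((Polynomial.mapAlgEquiv σ).trans ((Polynomial.algEquivAevalXAddC β).restrictScalars K))

variable (σ : M ≃ₐ[K] M) (β : M)

theorem affAut_C (a : M) :
    affAut σ β (algebraMap M (RatFunc M) a) = algebraMap M (RatFunc M) (σ a) := by
  rw [IsScalarTower.algebraMap_apply M (Polynomial M) (RatFunc M)]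
  change IsFractionRing.fieldEquivOfAlgEquiv K (RatFunc M) (RatFunc M) _
    (algebraMap (Polynomial M) (RatFunc M) (Polynomial.C a)) = _
  rw [IsFractionRing.fieldEquivOfAlgEquiv_algebraMap,
    IsScalarTower.algebraMap_apply M (Polynomial M) (RatFunc M)]
  congr 1
  change Polynomial.algEquivAevalXAddC β (Polynomial.mapAlgEquiv σ (Polynomial.C a)) =
    Polynomial.C (σ a)
  simp

theorem affAut_X : affAut σ β RatFunc.X = RatFunc.X + algebraMap M (RatFunc M) β := by
  conv_lhs => rw [← RatFunc.algebraMap_X]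
  change IsFractionRing.fieldEquivOfAlgEquiv K (RatFunc M) (RatFunc M) _
    (algebraMap (Polynomial M) (RatFunc M) Polynomial.X) = _
  rw [IsFractionRing.fieldEquivOfAlgEquiv_algebraMap, ← RatFunc.algebraMap_X,
    IsScalarTower.algebraMap_apply M (Polynomial M) (RatFunc M), ← map_add]
  congr 1
  change Polynomial.algEquivAevalXAddC β (Polynomial.mapAlgEquiv σ Polynomial.X) =
    Polynomial.X + Polynomial.C β
  simp

theorem affAut_pow_C (n : ℕ) (a : M) :
    ((affAut σ β) ^ n) (algebraMap M (RatFunc M) a) = algebraMap M (RatFunc M) ((σ ^ n) a) := by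
  induction n generalizing a with
  | zero => rfl
  | succ n ih => rw [pow_succ, AlgEquiv.mul_apply, affAut_C, ih, pow_succ, AlgEquiv.mul_apply]

theorem affAut_pow_X (n : ℕ) :
    ((affAut σ β) ^ n) RatFunc.X =
      RatFunc.X + algebraMap M (RatFunc M) (∑ i ∈ range n, (σ ^ i) β) := by
  induction n with
  | zero => simp
  | succ n ih =>
    rw [pow_succ, AlgEquiv.mul_apply, affAut_X, map_add, ih, affAut_pow_C, Finset.sum_range_succ,
      map_add, add_assoc]

theorem affAut_order (p : ℕ) [hp : Fact p.Prime] [CharP M p] (h0 : 0 < orderOf σ)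
    (hβ : ∑ i ∈ range (orderOf σ), (σ ^ i) β = 1) :
    orderOf (affAut σ β) = orderOf σ * p := by
  have h1 : ∀ j : ℕ, (((affAut σ β) ^ (orderOf σ)) ^ j) RatFunc.X =
      RatFunc.X + algebraMap M (RatFunc M) (j : M) := by
    intro j
    induction j with
    | zero => simp
    | succ j ih =>
      rw [pow_succ, AlgEquiv.mul_apply, affAut_pow_X, hβ, map_add, ih, map_one, map_one,
        Nat.cast_succ, map_add, map_one, add_assoc]
  have h2 : ∀ (j : ℕ) (a : M), (((affAut σ β) ^ (orderOf σ)) ^ j)
      (algebraMap M (RatFunc M) a) = algebraMap M (RatFunc M) a := by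
    intro j a
    rw [← pow_mul, affAut_pow_C, pow_mul, pow_orderOf_eq_one, one_pow, AlgEquiv.one_apply]
  apply Nat.dvd_antisymm
  · apply orderOf_dvd_of_pow_eq_one
    rw [pow_mul]
    apply ratFunc_aut_ext'
    · intro a
      rw [h2]
      rfl
    · rw [h1, CharP.cast_eq_zero, map_zero, add_zero]
      rfl
  · have h3 : (affAut σ β) ^ (orderOf (affAut σ β)) = 1 := pow_orderOf_eq_one _
    have h4 : orderOf σ ∣ orderOf (affAut σ β) := by
      apply orderOf_dvd_of_pow_eq_one
      apply AlgEquiv.ext
      intro a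
      apply (algebraMap M (RatFunc M)).injective
      rw [← affAut_pow_C σ β, h3]
      rfl
    obtain ⟨j, hj⟩ := h4
    rw [hj]
    apply mul_dvd_mul_left
    rw [hj, pow_mul] at h3
    have h5 := h1 j
    rw [h3, AlgEquiv.one_apply] at h5
    have h6 : algebraMap M (RatFunc M) (j : M) = 0 := by
      have h7 : (RatFunc.X : RatFunc M) + 0 = RatFunc.X + algebraMap M (RatFunc M) (j : M) := by
        rw [add_zero]; exact h5
      exact (add_left_cancel h7).symm
    rw [map_eq_zero_iff _ (algebraMap M (RatFunc M)).injective] at h6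
    exact (CharP.cast_eq_zero_iff M p j).1 h6

/-- The invariant `X^p - X - α`. -/
noncomputable def albU (p : ℕ) (α : M) : RatFunc M :=
  RatFunc.X ^ p - RatFunc.X - algebraMap M (RatFunc M) α

theorem affAut_albU (p : ℕ) [hp : Fact p.Prime] [CharP M p] (α : M)
    (h : σ α = α + (β ^ p - β)) : affAut σ β (albU p α) = albU p α := by
  have hc : CharP (RatFunc M) p := charP_of_injective_algebraMap
    (algebraMap M (RatFunc M)).injective p
  unfold albU
  rw [map_sub, map_sub, map_pow, affAut_X, affAut_C, add_pow_char, h, map_add, map_sub, map_pow]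
  ring

end aut

end Pool.Agent.TH444.TW
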