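import Pool.Agent.TH444.TW.AlbB

/-!
# The fixed field
-/

set_option autoImplicit false

namespace Pool.Agent.TH444.TW

open Pool.Agent.H391R2.T4 (RegSol)
open Finset

section deg

variable {K M : Type} [Field K] [Field M] [Algebra K M]

theorem albU_trans (p : ℕ) [hp : Fact p.Prime] (α : M) : Transcendental M (albU p α) := by
  apply RatFunc.transcendental_of_ne_C
  rintro ⟨c, hc⟩
  have h1 : albU p α = algebraMap (Polynomial M) (RatFunc M)
      (Polynomial.X ^ p - Polynomial.X - Polynomial.C α) := by
    unfold albU
    rw [map_sub, map_sub, map_pow, RatFunc.algebraMap_X,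
      IsScalarTower.algebraMap_apply M (Polynomial M) (RatFunc M)]
    rfl
  have h2 : (RatFunc.C c : RatFunc M) = algebraMap (Polynomial M) (RatFunc M)
      (Polynomial.C c) := rfl
  rw [h1, h2] at hc
  have h3 := RatFunc.algebraMap_injective M hc
  have h4 := congrArg (fun P : Polynomial M => P.coeff p) h3
  have hp1 : 1 < p := hp.out.one_lt
  simp only [Polynomial.coeff_sub, Polynomial.coeff_X_pow, Polynomial.coeff_C] at h4
  rw [if_pos trivial, if_neg hp.out.ne_zero, if_neg hp.out.ne_zero, Polynomial.coeff_X,
    if_neg hp1.ne, sub_zero, sub_zero] at h4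
  exact one_ne_zero h4

/-- A subfield of `M(X)` containing `M` and `X` is everything. -/
theorem mem_of_gen (S : Subfield (RatFunc M)) (hM : ∀ a : M, algebraMap M (RatFunc M) a ∈ S)
    (hX : RatFunc.X ∈ S) (z : RatFunc M) : z ∈ S := by
  let T : IntermediateField M (RatFunc M) := S.toIntermediateField hM
  have h1 : IntermediateField.adjoin M {(RatFunc.X : RatFunc M)} ≤ T := by
    rw [IntermediateField.adjoin_simple_le_iff]
    exact hX
  have h2 : z ∈ IntermediateField.adjoin M {(RatFunc.X : RatFunc M)} := by
    rw [RatFunc.adjoin_X]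
    exact IntermediateField.mem_top
  exact h1 h2

theorem alb_deg [FiniteDimensional K M] [IsGalois K M] (p : ℕ) [hp : Fact p.Prime] (α : M) :
    FiniteDimensional (IntermediateField.adjoin K {albU p α}) (RatFunc M) ∧
    Module.finrank (IntermediateField.adjoin K {albU p α}) (RatFunc M) ≤
      Module.finrank K M * p := by
  classical
  let N := RatFunc M
  let E₂ : IntermediateField K N := IntermediateField.adjoin K {albU p α}
  obtain ⟨a, ha⟩ := Field.exists_primitive_element K M
  let a' : N := algebraMap M N a
  have hu : albU p α ∈ E₂ := IntermediateField.mem_adjoin_simple_self K _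
  -- the first step
  have hroot : Polynomial.aeval a' ((minpoly K a).map (algebraMap K E₂)) = 0 := by
    rw [Polynomial.aeval_map_algebraMap]
    change Polynomial.aeval (algebraMap M N a) (minpoly K a) = 0
    rw [Polynomial.aeval_algebraMap_apply, minpoly.aeval, map_zero]
  have hmon : (minpoly K a).Monic := minpoly.monic (IsIntegral.of_finite K a)
  have hint : IsIntegral E₂ a' := ⟨(minpoly K a).map (algebraMap K E₂), hmon.map _, by
    rw [← Polynomial.aeval_def]; exact hroot⟩
  let B : IntermediateField E₂ N := IntermediateField.adjoin E₂ {a'}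
  have hB1 : FiniteDimensional E₂ B := IntermediateField.adjoin.finiteDimensional hint
  have hB2 : Module.finrank E₂ B ≤ Module.finrank K M := by
    rw [IntermediateField.adjoin.finrank hint]
    have h1 : minpoly E₂ a' ∣ (minpoly K a).map (algebraMap K E₂) := minpoly.dvd E₂ a' hroot
    have h2 := Polynomial.natDegree_le_of_dvd h1 (hmon.map _).ne_zero
    rw [Polynomial.natDegree_map] at h2
    have h3 : (minpoly K a).natDegree = Module.finrank K M := by
      rw [← IntermediateField.adjoin.finrank (IsIntegral.of_finite K a), ha,
        IntermediateField.finrank_top']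
    omega
  have haB : a' ∈ B := IntermediateField.mem_adjoin_simple_self E₂ _
  have hMB : ∀ c : M, algebraMap M N c ∈ B := by
    intro c
    have h1 : c ∈ IntermediateField.adjoin K {a} := by rw [ha]; exact IntermediateField.mem_top
    have h2 : IntermediateField.adjoin K {a} ≤
        (B.restrictScalars K).comap (IsScalarTower.toAlgHom K M N) := by
      rw [IntermediateField.adjoin_simple_le_iff]
      exact haB
    exact h2 h1
  -- the second step
  let P : Polynomial B := Polynomial.X ^ p - Polynomial.X -
    Polynomial.C (⟨algebraMap M N α, hMB α⟩ + algebraMap E₂ B ⟨albU p α, hu⟩)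
  have hp1 : 1 < p := hp.out.one_lt
  have hPdeg : P.natDegree = p := by
    have h1 : (Polynomial.X ^ p - Polynomial.X : Polynomial B).natDegree = p := by
      rw [Polynomial.natDegree_sub_eq_left_of_natDegree_lt]
      · exact Polynomial.natDegree_X_pow p
      · rw [Polynomial.natDegree_X, Polynomial.natDegree_X_pow]
        exact hp1
    change (Polynomial.X ^ p - Polynomial.X - Polynomial.C _ : Polynomial B).natDegree = p
    rw [Polynomial.natDegree_sub_C, h1]
  have hPmon : P.Monic := by
    have h1 : (Polynomial.X ^ p - (Polynomial.X + Polynomial.C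
        (⟨algebraMap M N α, hMB α⟩ + algebraMap E₂ B ⟨albU p α, hu⟩)) : Polynomial B).Monic := by
      apply Polynomial.monic_X_pow_sub
      refine lt_of_le_of_lt (Polynomial.degree_X_add_C _).le ?_
      exact_mod_cast hp1
    rwa [← sub_sub] at h1
  have hPX : Polynomial.aeval (RatFunc.X : N) P = 0 := by
    change Polynomial.aeval (RatFunc.X : N) (Polynomial.X ^ p - Polynomial.X - Polynomial.C _) = 0
    rw [map_sub, map_sub, map_pow, Polynomial.aeval_X, Polynomial.aeval_C, map_add]
    change RatFunc.X ^ p - RatFunc.X - (algebraMap M N α + albU p α) = 0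
    unfold albU
    ring
  have hintX : IsIntegral B (RatFunc.X : N) := ⟨P, hPmon, hPX⟩
  have htop : IntermediateField.adjoin B {(RatFunc.X : N)} = ⊤ := by
    rw [eq_top_iff]
    intro z _
    refine mem_of_gen (IntermediateField.adjoin B {(RatFunc.X : N)}).toSubfield ?_ ?_ z
    · intro c
      exact (IntermediateField.adjoin B {(RatFunc.X : N)}).algebraMap_mem ⟨_, hMB c⟩
    · exact IntermediateField.mem_adjoin_simple_self B _
  have hN1 : FiniteDimensional B N := by
    have h1 : FiniteDimensional B (IntermediateField.adjoin B {(RatFunc.X : N)}) :=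
      IntermediateField.adjoin.finiteDimensional hintX
    rw [htop] at h1
    exact Module.Finite.equiv (IntermediateField.topEquiv (F := B) (E := N)).toLinearEquiv
  have hN2 : Module.finrank B N ≤ p := by
    rw [← IntermediateField.finrank_top', ← htop, IntermediateField.adjoin.finrank hintX, ← hPdeg]
    exact Polynomial.natDegree_le_of_dvd (minpoly.dvd B _ hPX) hPmon.ne_zero
  refine ⟨FiniteDimensional.trans E₂ B N, ?_⟩
  change Module.finrank E₂ N ≤ _
  rw [← Module.finrank_mul_finrank E₂ B N]
  exact Nat.mul_le_mul hB2 hN2

end deg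

end Pool.Agent.TH444.TW
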