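import Pool.Agent.TH444.TW.Ab

/-!
# Regular steps over the extensions of a field
-/

set_option autoImplicit false

namespace Pool.Agent.TH444.TW

open Pool.Agent.H391R2 Pool.Agent.H391R2.T4
open Pool.Agent.TH15.IGP (StepSol PW)

/-- Every embedding problem given by the epimorphism `p : W' → W` over an infinite extension of
`k₀` has a regular solution. -/
def RSK (k₀ : Type) [Field k₀] {W W' : Type} [Group W] [Group W'] (p : W' →* W) : Prop :=
  ∀ (K M : Type) [Field K] [Algebra k₀ K] [Infinite K] [Field M] [Algebra K M]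
    [FiniteDimensional K M] [IsGalois K M] (ε : (M ≃ₐ[K] M) ≃* W),
    RegSol K M W' (ε.symm.toMonoidHom.comp p)

section basic

variable {k₀ : Type} [Field k₀] {W W' W'' : Type} [Group W] [Group W'] [Group W'']

theorem RS.rsk {p : W' →* W} (h : RS p) : RSK k₀ p := fun K M _ _ _ _ _ _ _ ε => h K M ε

theorem RSK.comp [Finite W''] {p : W' →* W} {p' : W'' →* W'} (h : RSK k₀ p) (h' : RSK k₀ p') :
    RSK k₀ (p.comp p') := by
  intro K M _ _ _ _ _ _ _ ε
  have := infinite_ratFunc K
  let _ : Algebra k₀ (RatFunc K) :=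
    ((algebraMap K (RatFunc K)).comp (algebraMap k₀ K)).toAlgebra
  exact reg_comp K M W' W'' (ε.symm.toMonoidHom.comp p) p' (h K M ε)
    (fun M' _ _ _ _ γ₁ => h' (RatFunc K) M' γ₁)

theorem RSK.quot {p : W' →* W} {p'' : W'' →* W} (q : W'' →* W') (hq : Function.Surjective q)
    (hpq : ∀ x, p (q x) = p'' x) (h : RSK k₀ p'') : RSK k₀ p := by
  intro K M _ _ _ _ _ _ _ ε
  refine Pool.Agent.W200.IJ.regSol_quot (L' := M) (ε.symm.toMonoidHom.comp p)
    (ε.symm.toMonoidHom.comp p'') q hq ?_ ?_ (h K M ε)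
  · intro g
    rw [restrictNormal_self]
    change ε.symm (p (q g)) = ε.symm (p'' g)
    rw [hpq]
  · intro ρ hρ
    rw [restrictNormal_self] at hρ
    exact ⟨1, map_one _, by rw [map_one, hρ]⟩

theorem RSK.congr {p : W' →* W} {q : W'' →* W} (h : RSK k₀ p) (e : W' ≃* W'')
    (hq : ∀ x, q (e x) = p x) : RSK k₀ q :=
  RSK.quot (e : W' →* W'') e.surjective hq h

/-- Proper solutions over Hilbertian fields. -/
theorem RSK.stepSol [Finite W'] {p : W' →* W} (h : RSK k₀ p) (hK : HilbField k₀) :
    StepSol k₀ p := by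
  have := infinite_of_hilb hK
  exact Pool.Agent.TH15.IGP.stepSol_of_reg k₀ hK p fun L _ _ _ _ ε => h k₀ L ε

/-- Regular solutions. -/
theorem RSK.all [Finite W'] {p : W' →* W} (h : RSK k₀ p) (M : Type) [Field M] [Algebra k₀ M]
    [FiniteDimensional k₀ M] [IsGalois k₀ M] (ε : (M ≃ₐ[k₀] M) ≃* W) :
    RegSol k₀ M W' (ε.symm.toMonoidHom.comp p) := by
  rcases finite_or_infinite k₀ with hfin | hinf
  · refine Pool.Agent.TH15.IGP.fin_of_inf k₀ M W' _ ?_
    intro M' _ _ _ _ γM
    have := infinite_ratFunc k₀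
    exact h (RatFunc k₀) M' (γM.trans ε)
  · exact h k₀ M ε

end basic

/-- The local problems have regular solutions. -/
def LocK (k₀ : Type) [Field k₀] {B A : Type} [Group B] [Group A] (θ : B →* MulAut A) : Prop :=
  ∀ (K' M' : Type) [Field K'] [Algebra k₀ K'] [Infinite K'] [Field M'] [Algebra K' M']
    [FiniteDimensional K' M'] [IsGalois K' M'] (β : (M' ≃ₐ[K'] M') →* B),
    RegSol K' M' (A ⋊[θ.comp β] (M' ≃ₐ[K'] M')) SemidirectProduct.rightHom

section pow

variable {k₀ : Type} [Field k₀] {Γ B A : Type} [Group Γ] [Group B] [Group A] [Finite Γ] [Finite A]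
    {k : ℕ} (θ : B →* MulAut A) (ψ : Γ →* Wr B k) (hloc : LocK k₀ θ)

include hloc in
theorem xs_rsk : ∀ (m : ℕ) (S : Finset (Fin k)) (hS : Inv ψ S), S.card = m →
    RSK k₀ (rt θ ψ S hS) := by
  classical
  have hfin0 : Finite (PowSd θ ψ) := Finite.of_equiv _ SemidirectProduct.equivProd.symm
  intro m
  induction m using Nat.strong_induction_on with
  | _ m ih =>
    intro S hS hm
    rcases S.eq_empty_or_nonempty with h | ⟨o, ho⟩
    · subst h
      exact (RS.of_equiv (rtEmpty θ ψ hS)).rsk
    · obtain ⟨S₀, hS₀, hlt, ho₀, horb⟩ := orbit_step ψ S hS o ho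
      have h1 := ih S₀.card (by rw [← hm]; exact Finset.card_lt_card hlt) S₀ hS₀ rfl
      rw [← rt_pr θ ψ S S₀ hS hS₀]
      refine RSK.comp h1 ?_
      intro K L _ _ _ _ _ _ _ ε
      refine orbit_reg' θ ψ S S₀ hS hS₀ hlt.1 o ho ho₀ horb ε fun Δ β => ?_
      have hinf : Infinite (IntermediateField.fixedField Δ) :=
        Infinite.of_injective _ (algebraMap K (IntermediateField.fixedField Δ)).injective
      let _ : Algebra k₀ (IntermediateField.fixedField Δ) :=
        ((algebraMap K (IntermediateField.fixedField Δ)).comp (algebraMap k₀ K)).toAlgebra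
      exact hloc _ _ β

include hloc in
/-- **Embedding problems with kernel `A^k`** have regular solutions. -/
theorem pow_rsk : RSK k₀ (SemidirectProduct.rightHom : PowSd θ ψ →* Γ) := by
  have hS : Inv ψ Finset.univ := fun γ i => by
    simp only [Finset.mem_univ]
  exact RSK.congr (xs_rsk θ ψ hloc _ Finset.univ hS rfl) (xsUniv θ ψ hS).symm fun x => by
    obtain ⟨y, rfl⟩ := (xsUniv θ ψ hS).surjective x
    rw [MulEquiv.symm_apply_apply]
    rfl

end pow

/-- Extension of the base field. -/
theorem reg_base (k₀ K A : Type) [Field k₀] [Field K] [Algebra k₀ K] [Infinite K] [Group A]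
    [Finite A] (h : RegSol k₀ k₀ A 1) : RegSol K K A 1 := by
  classical
  let _ : MulAction (K ≃ₐ[K] K) Unit :=
    { smul := fun _ x => x
      one_smul := fun _ => rfl
      mul_smul := fun _ _ _ => rfl }
  have h1 := Pool.Agent.TH15.IGP.pw_reg k₀ K K A Unit h
  have hK : ∀ σ τ : K ≃ₐ[K] K, σ = τ := fun σ τ => AlgEquiv.ext fun x => by
    have h1 : ∀ ρ : K ≃ₐ[K] K, ρ x = x := fun ρ => ρ.commutes x
    rw [h1, h1]
  let e : PW A Unit (K ≃ₐ[K] K) ≃* A :=
    { toFun := fun x => x.left ()
      invFun := fun a => ⟨fun _ => a, 1⟩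
      left_inv := fun x => by
        apply SemidirectProduct.ext
        · rfl
        · exact hK _ _
      right_inv := fun a => rfl
      map_mul' := fun x y => rfl }
  exact regSol_equiv e 1 SemidirectProduct.rightHom (fun g => hK _ _) h1

/-- Inner twists. -/
theorem reg_inner {K L A : Type} [Field K] [Field L] [Algebra K L] [FiniteDimensional K L]
    [IsGalois K L] [Group A] (β : (L ≃ₐ[K] L) →* A) (h : RegSol K K A 1) :
    RegSol K L (A ⋊[MulAut.conj.comp β] (L ≃ₐ[K] L)) SemidirectProduct.rightHom := by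
  let e : A ⋊[(1 : (L ≃ₐ[K] L) →* MulAut A)] (L ≃ₐ[K] L) ≃*
      A ⋊[MulAut.conj.comp β] (L ≃ₐ[K] L) :=
    { toFun := fun x => ⟨x.left * (β x.right)⁻¹, x.right⟩
      invFun := fun x => ⟨x.left * β x.right, x.right⟩
      left_inv := fun x => by
        apply SemidirectProduct.ext
        · exact inv_mul_cancel_right _ _
        · rfl
      right_inv := fun x => by
        apply SemidirectProduct.ext
        · exact mul_inv_cancel_right _ _
        · rfl
      map_mul' := fun x y => by
        apply SemidirectProduct.ext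
        · change x.left * y.left * (β (x.right * y.right))⁻¹ =
            x.left * (β x.right)⁻¹ * (β x.right * (y.left * (β y.right)⁻¹) * (β x.right)⁻¹)
          rw [map_mul, mul_inv_rev]
          group
        · rfl }
  exact regSol_equiv e _ SemidirectProduct.rightHom (fun g => rfl)
    (reg_prod (K := K) (L := L) (C := A) 1 (fun g => rfl) h)

theorem locK_inner (k₀ A : Type) [Field k₀] [Group A] [Finite A] (h : RegSol k₀ k₀ A 1) :
    LocK k₀ (MulAut.conj : A →* MulAut A) := by
  intro K' M' _ _ _ _ _ _ _ β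
  exact reg_inner β (reg_base k₀ K' A h)

end Pool.Agent.TH444.TW
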