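import Pool.Agent.TH444.TW.ClsDef
import Pool.Agent.TH444.TW.RSK
import Pool.Agent.TH59.WX.PG

/-!
# Solutions for the class
-/

set_option autoImplicit false

namespace Pool.Agent.TH444.TW

open Pool.Agent.H391R2 Pool.Agent.H391R2.T4

variable {K : Type} [Field K]

theorem regSol_of_regularOver {A : Type} [Group A] (h : RegularOver K A) : RegSol K K A 1 := by
  obtain ⟨F, i1, i2, i3, i4, i5, i6, ⟨γ⟩, hreg⟩ := h
  refine ⟨F, i1, i2, i3, i3, i4, inferInstance, i5, i6, γ, ?_, hreg⟩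
  intro σ x
  change σ (algebraMap K F x) = algebraMap K F x
  rw [IsScalarTower.algebraMap_apply K (RatFunc K) F, AlgEquiv.commutes]

theorem inner_rsk {A : Type} [Group A] [Finite A] (hA : RegularOver K A) {W W' : Type} [Group W]
    [Finite W] [Group W'] (p : W' →* W) (hp : IsInnerPower A p) : RSK K p := by
  obtain ⟨k, ψ, ι, s, hι, hr, hs, hc⟩ := hp
  obtain ⟨e, he⟩ := exists_sdEquiv ((powAct (MulAut.conj : A →* MulAut A) k).comp ψ) p ι s hι hr hs
    hc
  refine RSK.congr (pow_rsk (MulAut.conj : A →* MulAut A) ψ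
    (locK_inner K A (regSol_of_regularOver hA))) e.symm fun x => ?_
  obtain ⟨y, rfl⟩ := e.surjective x
  rw [MulEquiv.symm_apply_apply]
  exact (he y).symm

theorem wreath_rsk (G : Type) [Group G] [Finite G] (n : ℕ)
    (hn : ((3 * Nat.card G + 2).factorial) ^ 3 ≤ n) {W W' : Type} [Group W] [Finite W]
    [Group W'] (p : W' →* W) (hp : IsTwistedPower G n p) : RSK K p := by
  obtain ⟨k, ψ, ι, s, hι, hr, hs, hc⟩ := hp
  exact (wr_rs G n hn ψ p ι s hι hr hs hc).rsk

theorem kernel_rsk {W W' : Type} [Group W] [Group W'] (p : W' →* W)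
    (hs : Function.Surjective p) (I : Type) [Finite I] (G : I → Type) [∀ i, Group (G i)]
    [∀ i, Finite (G i)] [∀ i, Nontrivial (G i)] (hZ : ∀ i, Subgroup.center (G i) = ⊥)
    (hT : ∀ i, ∃ T : Subgroup (MulAut (G i)),
      IsCompl T (MulAut.conj : G i →* MulAut (G i)).range)
    (n : I → ℕ) (hn : ∀ i, ((3 * Nat.card (G i) + 2).factorial) ^ 3 ≤ n i)
    (hN : Nonempty (p.ker ≃* (∀ i, Wr (G i) (n i)))) :
    RSK K p := by
  intro K' M _ _ _ _ _ _ _ ε
  obtain ⟨e⟩ := hN
  refine Pool.Agent.TH59.WX.reg_prod hZ hT hn K' M W' _ (ε.symm.surjective.comp hs) ⟨?_⟩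
  refine (MulEquiv.subgroupCongr ?_).trans e
  ext x
  rw [MonoidHom.mem_ker, MonoidHom.mem_ker]
  exact map_eq_one_iff ε.symm ε.symm.injective

theorem finite_of_ker {W W' : Type} [Group W] [Finite W] [Group W'] (p : W' →* W)
    [Finite p.ker] : Finite W' := by
  have h2 : Finite (W' ⧸ p.ker) := Finite.of_injective _ (QuotientGroup.kerLift_injective p)
  exact Finite.of_subgroup_quotient p.ker

theorem Cls.main {W W' : Type} [Group W] [Group W'] {p : W' →* W} (h : Cls K p) :
    Finite W → Finite W' ∧ RSK K p := by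
  induction h with
  | abelian p s hs hfin hcomm =>
    intro hW
    exact ⟨finite_of_ker p, (ab_rs p s hs hcomm).rsk⟩
  | inner p A hA hp =>
    intro hW
    refine ⟨?_, inner_rsk hA p hp⟩
    obtain ⟨k, ψ, ι, s, hι, hr, hs, hc⟩ := hp
    exact finite_of_sd p ι fun w' hw' => by
      have h2 : w' ∈ ι.range := by rw [hr]; exact hw'
      exact h2
  | wreath p G n hn hp =>
    intro hW
    refine ⟨?_, wreath_rsk G n hn p hp⟩
    obtain ⟨k, ψ, ι, s, hι, hr, hs, hc⟩ := hp
    exact finite_of_sd p ι fun w' hw' => by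
      have h2 : w' ∈ ι.range := by rw [hr]; exact hw'
      exact h2
  | kernel p hs I G hZ hT n hn hN =>
    intro hW
    obtain ⟨e⟩ := hN
    have hf1 : ∀ i, Finite (Wr (G i) (n i)) := fun i => finite_wr (G i) (n i)
    have hf : Finite p.ker := Finite.of_equiv _ e.symm.toEquiv
    exact ⟨finite_of_ker p, kernel_rsk p hs I G hZ hT n hn ⟨e⟩⟩
  | comp p q hp hq ihp ihq =>
    intro hW
    obtain ⟨h1, h2⟩ := ihp hW
    obtain ⟨h3, h4⟩ := ihq h1
    exact ⟨h3, RSK.comp h2 h4⟩
  | quot p q hq hpq ih =>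
    intro hW
    obtain ⟨h1, h2⟩ := ih hW
    exact ⟨Finite.of_surjective q hq, RSK.quot q hq (fun x => rfl) h2⟩

theorem Cls.finite {W W' : Type} [Group W] [Group W'] {p : W' →* W} (h : Cls K p) [hW : Finite W] :
    Finite W' := (h.main hW).1

theorem Cls.rsk {W W' : Type} [Group W] [Group W'] {p : W' →* W} (h : Cls K p) [hW : Finite W] :
    RSK K p := (h.main hW).2

end Pool.Agent.TH444.TW
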