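import Pool.Agent.TH444.TW.StarH
import Pool.Agent.TH444.WC.Phi

/-!
# The homomorphism to the induced group
-/

set_option autoImplicit false

open Polynomial

namespace Pool.Agent.TH444.TW

open Pool.Agent.TH444.WC

section core

variable {K L Ω Q U : Type} [Field K] [Field L] [Algebra K L] [FiniteDimensional K L] [IsGalois K L]
  [Fintype Ω] [DecidableEq Ω] [MulAction (L ≃ₐ[K] L) Ω]
  [Field Q] [Algebra (MvPolynomial Ω K) Q] [IsFractionRing (MvPolynomial Ω K) Q]
  [Algebra K Q] [IsScalarTower K (MvPolynomial Ω K) Q] [Field U] [Algebra Q U] [IsAlgClosure Q U]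
  [Algebra K U] [IsScalarTower K Q U] [Algebra L U] [IsScalarTower K L U]

omit [IsAlgClosure Q U] [IsGalois K L] [MulAction (L ≃ₐ[K] L) Ω] in
theorem indep_tt_L (c d : Ω → Ω → L)
    (hd : ∀ ω ω', ∑ i, c i ω * d i ω' = if ω = ω' then 1 else 0) :
    AlgebraicIndependent L (tt K Q U c) :=
  (Algebra.IsAlgebraic.algebraicIndependent_iff K L).1 (indep_tt c d hd)

variable {X H F : Type} [Group X] [Group H] [Field F]

/-- The system of embeddings. -/
theorem exists_system [Algebra (RatFunc L) F] [Algebra L F] [IsScalarTower L (RatFunc L) F]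
    [FiniteDimensional (RatFunc L) F]
    (c d : Ω → Ω → L) (hd' : ∀ ω ω', ∑ i, c i ω * d i ω' = if ω = ω' then 1 else 0)
    (α : X →* (L ≃ₐ[K] L)) (o : Ω) (r : Ω → X) (hr : ∀ ω, α (r ω) • o = ω)
    (X₁ : Subgroup X) (hX₁ : ∀ x, x ∈ X₁ ↔ α x • o = o) (q : X₁ →* H)
    (αH : H →* (L ≃ₐ[K] L)) (hq : ∀ x : X₁, αH (q x) = α x)
    (s : H →* RingAut F) (hs1 : ∀ h l, s h (algebraMap L F l) = algebraMap L F (αH h l))
    (hs2 : ∀ h, s h (algebraMap (RatFunc L) F RatFunc.X) =
      algebraMap (RatFunc L) F RatFunc.X) :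
    ∃ j : X → F →+* U,
      (∀ x l, j x (algebraMap L F l) = algebraMap L U (α x l)) ∧
      (∀ x, j x (algebraMap (RatFunc L) F RatFunc.X) = tt K Q U c (α x • o)) ∧
      (∀ (x : X) (h : X₁) (y : F), j (x * h) y = j x (s (q h) y)) := by
  classical
  have hacU : IsAlgClosed U := IsAlgClosure.isAlgClosed Q
  have hindep : AlgebraicIndependent L (tt K Q U c) := indep_tt_L c d hd'
  have hj0 : ∀ ω, ∃ j : F →+* U,
      (∀ l, j (algebraMap L F l) = ((algebraMap L U).comp
        ((α (r ω) : L ≃ₐ[K] L) : L →+* L)) l) ∧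
      j (algebraMap (RatFunc L) F RatFunc.X) = tt K Q U c ω := by
    intro ω
    apply exists_j_hom
    intro p hp
    have h1 : (p.map ((α (r ω) : L ≃ₐ[K] L) : L →+* L)) = 0 := by
      by_contra hne
      apply hindep.transcendental ω
      refine ⟨_, hne, ?_⟩
      rw [aeval_def, eval₂_map]
      exact hp
    rwa [Polynomial.map_eq_zero] at h1
  choose j0 hj01 hj02 using hj0
  have hj : ∀ x : X, ∃ jx : F →+* U, ∀ (ω : Ω) (g : X₁), r ω * g = x →
      jx = (j0 ω).comp (s (q g) : F ≃+* F) := by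
    intro x
    let ω := α x • o
    have hmem : (r ω)⁻¹ * x ∈ X₁ := by
      rw [hX₁, map_mul, map_inv, mul_smul]
      change (α (r ω))⁻¹ • ω = o
      rw [inv_smul_eq_iff]
      exact (hr ω).symm
    refine ⟨(j0 ω).comp (s (q ⟨_, hmem⟩) : F ≃+* F), ?_⟩
    intro ω' g hg
    have h1 : ω' = ω := by
      change ω' = α x • o
      rw [← hg, map_mul, mul_smul, (hX₁ g).1 g.2, hr]
    subst h1
    have h2 : g = ⟨_, hmem⟩ := Subtype.ext (eq_inv_mul_of_mul_eq hg)
    rw [h2]
  choose j hj using hj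
  have hdec : ∀ x : X, ∃ g : X₁, r (α x • o) * g = x := by
    intro x
    refine ⟨⟨(r (α x • o))⁻¹ * x, ?_⟩, mul_inv_cancel_left _ _⟩
    rw [hX₁, map_mul, map_inv, mul_smul, inv_smul_eq_iff]
    exact (hr _).symm
  refine ⟨j, ?_, ?_, ?_⟩
  · intro x l
    obtain ⟨g, hg⟩ := hdec x
    rw [hj x _ g hg]
    change j0 _ (s (q g) (algebraMap L F l)) = _
    rw [hs1, hj01, hq]
    change algebraMap L U (α (r (α x • o)) (α g l)) = _
    rw [← AlgEquiv.mul_apply, ← map_mul, hg]
  · intro x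
    obtain ⟨g, hg⟩ := hdec x
    rw [hj x _ g hg]
    change j0 _ (s (q g) _) = _
    rw [hs2, hj02]
  · intro x h y
    obtain ⟨g, hg⟩ := hdec x
    rw [hj x _ g hg, hj (x * h) _ (g * h) (by rw [Subgroup.coe_mul, ← mul_assoc, hg])]
    rw [map_mul, map_mul]
    rfl

/-- The image of an algebraic extension of `k(X)` lies in an algebraically closed subfield, if `k`
and `X` do. -/
theorem image_mem {k U F : Type} [Field k] [Field U] [Field F] [Algebra (RatFunc k) F]
    [Algebra k F] [IsScalarTower k (RatFunc k) F] [Algebra.IsAlgebraic (RatFunc k) F]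
    {K : Type} [Field K] [Algebra K U] (C : IntermediateField K U)
    (hC : ∀ z : U, IsAlgebraic C z → z ∈ C) (j : F →+* U)
    (h1 : ∀ x : k, j (algebraMap k F x) ∈ C)
    (h2 : j (algebraMap (RatFunc k) F RatFunc.X) ∈ C) (x : F) : j x ∈ C := by
  have h3 : ∀ y : RatFunc k, j (algebraMap (RatFunc k) F y) ∈ C := by
    intro y
    induction y using RatFunc.induction_on with
    | _ p q hq =>
      rw [map_div₀, map_div₀]
      have h4 : ∀ p : Polynomial k,
          j (algebraMap (RatFunc k) F (algebraMap (Polynomial k) (RatFunc k) p)) ∈ C := by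
        intro p
        induction p using Polynomial.induction_on with
        | C a =>
          have h5 : algebraMap (Polynomial k) (RatFunc k) (Polynomial.C a) =
            algebraMap k (RatFunc k) a := rfl
          rw [h5, ← IsScalarTower.algebraMap_apply k (RatFunc k) F]
          exact h1 a
        | add p q hp hq =>
          rw [map_add, map_add, map_add]
          exact add_mem hp hq
        | monomial n a h =>
          rw [pow_succ, ← mul_assoc, map_mul, map_mul, map_mul]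
          refine mul_mem h ?_
          rw [RatFunc.algebraMap_X]
          exact h2
      exact div_mem (h4 p) (h4 q)
  apply hC
  obtain ⟨g, hg0, hg⟩ := Algebra.IsAlgebraic.isAlgebraic (R := RatFunc k) x
  let κ : RatFunc k →+* C := (j.comp (algebraMap (RatFunc k) F)).codRestrict C.toSubfield h3
  refine ⟨g.map κ, ?_, ?_⟩
  · rwa [Ne, Polynomial.map_eq_zero]
  · rw [Polynomial.aeval_def, Polynomial.eval₂_map]
    have h4 : (algebraMap C U).comp κ = j.comp (algebraMap (RatFunc k) F) := rfl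
    rw [h4]
    have h5 : Polynomial.eval₂ (j.comp (algebraMap (RatFunc k) F)) (j x) g =
      j (Polynomial.aeval x g) := by
      rw [Polynomial.aeval_def, Polynomial.hom_eval₂]
    rw [h5, hg, map_zero]

/-- The homomorphism to `X`. -/
theorem exists_hom [Algebra (RatFunc L) F] [Algebra L F] [IsScalarTower L (RatFunc L) F]
    [FiniteDimensional (RatFunc L) F] [IsGalois (RatFunc L) F]
    (hreg : ∀ y : F, IsAlgebraic L y → y ∈ Set.range (algebraMap L F))
    (c d : Ω → Ω → L) (hc : ∀ i (ρ : L ≃ₐ[K] L) ω, c i (ρ • ω) = ρ (c i ω))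
    (hd : ∀ i j, ∑ ω, d i ω * c j ω = if i = j then 1 else 0)
    (hd' : ∀ ω ω', ∑ i, c i ω * d i ω' = if ω = ω' then 1 else 0)
    (α : X →* (L ≃ₐ[K] L)) (hα : Function.Surjective α) (o : Ω) (r : Ω → X)
    (hr : ∀ ω, α (r ω) • o = ω)
    (X₁ : Subgroup X) (hX₁ : ∀ x, x ∈ X₁ ↔ α x • o = o) (q : X₁ →* H)
    (αH : H →* (L ≃ₐ[K] L)) (hq : ∀ x : X₁, αH (q x) = α x)
    (s : H →* RingAut F) (hs1 : ∀ h l, s h (algebraMap L F l) = algebraMap L F (αH h l))
    (hs2 : ∀ h, s h (algebraMap (RatFunc L) F RatFunc.X) =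
      algebraMap (RatFunc L) F RatFunc.X)
    (hs3 : ∀ b : F ≃ₐ[RatFunc L] F, ∃ h, αH h = 1 ∧ ∀ x, s h x = b x)
    (hs4 : Function.Injective s)
    (hinj : ∀ n : X, α n = 1 → (∀ ω (y : X₁), (y : X) = (r ω)⁻¹ * n * r ω → q y = 1) → n = 1)
    (hcrt : ∀ f : Ω → H, (∀ ω, αH (f ω) = 1) → ∃ n : X, α n = 1 ∧
      ∀ ω (y : X₁), (y : X) = (r ω)⁻¹ * n * r ω → q y = f ω) :
    ∃ (j : Ω → F →+* U) (Φ : (U ≃ₐ[Q] U) →* X),
      (∀ ω l, j ω (algebraMap L F l) = algebraMap L U (α (r ω) l)) ∧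
      (∀ ω, j ω (algebraMap (RatFunc L) F RatFunc.X) = tt K Q U c ω) ∧
      Function.Surjective Φ ∧ (∀ σ, α (Φ σ) = res K L Q U σ) ∧
      (∀ n : X, α n = 1 → ∃ σ : U ≃ₐ[Q] U, (∀ y : U, IsAlgebraic K y → σ y = y) ∧ Φ σ = n) ∧
      (∀ σ : U ≃ₐ[Q] U, (∀ ω x, σ (j ω x) = j ω x) →
        (∀ x : L, σ (algebraMap L U x) = algebraMap L U x) → Φ σ = 1) := by
  classical
  have hacU : IsAlgClosed U := IsAlgClosure.isAlgClosed Q
  have hnorm : Normal Q U := IsAlgClosure.normal Q U
  have hindep : AlgebraicIndependent K (tt K Q U c) := indep_tt c d hd'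
  obtain ⟨j, hj1, hj2, hj3⟩ := exists_system (K := K) (Q := Q) (U := U) c d hd' α o r hr X₁ hX₁ q
    αH hq s hs1 hs2
  have hconj : ∀ (x n : X), α n = 1 → x⁻¹ * n * x ∈ X₁ := by
    intro x n hn
    rw [hX₁, map_mul, map_mul, hn, mul_one, ← map_mul, inv_mul_cancel, map_one, one_smul]
  have hdec : ∀ x : X, ∃ (ω : Ω) (g : X₁), r ω * g = x := by
    intro x
    refine ⟨α x • o, ⟨(r (α x • o))⁻¹ * x, ?_⟩, mul_inv_cancel_left _ _⟩
    rw [hX₁, map_mul, map_inv, mul_smul, inv_smul_eq_iff]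
    exact (hr _).symm
  -- moving an element of the kernel across
  have hmove : ∀ (a x n : X) (hn : α n = 1) (z : F),
      j (a * n * x) z = j (a * x) (s (q ⟨x⁻¹ * n * x, hconj x n hn⟩) z) := by
    intro a x n hn z
    rw [← hj3]
    congr 2
    change a * n * x = a * x * (x⁻¹ * n * x)
    group
  have h_eq : ∀ x y : X, (∀ z, j x z = j y z) → ∃ h : X₁, y = x * h ∧ q h = 1 := by
    intro x y hxy
    have h1 : α x • o = α y • o := by
      apply hindep.injective
      rw [← hj2 x, ← hj2 y, hxy]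
    have hmem : x⁻¹ * y ∈ X₁ := by
      rw [hX₁, map_mul, map_inv, mul_smul, ← h1, inv_smul_smul]
    refine ⟨⟨_, hmem⟩, (mul_inv_cancel_left x y).symm, ?_⟩
    apply hs4
    rw [map_one]
    apply RingEquiv.ext
    intro z
    apply (j x).injective
    rw [← hj3]
    change j (x * (x⁻¹ * y)) z = _
    rw [mul_inv_cancel_left, ← hxy]
    rfl
  have huniq : ∀ x₀ x₀' : X, α x₀ = α x₀' → (∀ x z, j (x₀ * x) z = j (x₀' * x) z) →
      x₀ = x₀' := by
    intro x₀ x₀' h0 h1
    have h2 : x₀⁻¹ * x₀' = 1 := by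
      apply hinj
      · rw [map_mul, map_inv, h0, inv_mul_cancel]
      · intro ω y hy
        obtain ⟨h, h3, h4⟩ := h_eq _ _ (h1 (r ω))
        have h5 : y = h := Subtype.ext (by
          rw [hy]
          have h6 : (h : X) = (x₀ * r ω)⁻¹ * (x₀' * r ω) := by rw [h3]; group
          rw [h6]; group)
        rw [h5, h4]
    exact (inv_mul_eq_one.1 h2)
  have hrep : ∀ (σ : U ≃ₐ[Q] U) (x₀ : X), (∀ ω z, σ (j (r ω) z) = j (x₀ * r ω) z) →
      ∀ x z, σ (j x z) = j (x₀ * x) z := by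
    intro σ x₀ h x z
    obtain ⟨ω, g, rfl⟩ := hdec x
    rw [hj3, h, ← mul_assoc, hj3]
  have hex : ∀ σ : U ≃ₐ[Q] U, ∃ x₀ : X, α x₀ = res K L Q U σ ∧
      ∀ x z, σ (j x z) = j (x₀ * x) z := by
    intro σ
    obtain ⟨y₀, hy₀⟩ := hα (res K L Q U σ)
    have hb : ∀ ω, ∃ b : F ≃ₐ[RatFunc L] F, ∀ z, σ (j (r ω) z) = j (y₀ * r ω) (b z) := by
      intro ω
      refine differ_hom (k := L) ((σ : U →+* U).comp (j (r ω))) (j (y₀ * r ω)) ?_ ?_
      · intro l
        simp only [RingHom.comp_apply]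
        rw [hj1, hj1, map_mul, hy₀, AlgEquiv.mul_apply, res_spec]
        rfl
      · simp only [RingHom.comp_apply]
        rw [hj2, hj2, map_mul, hy₀, mul_smul]
        exact sigma_tt c hc σ _
    choose b hb using hb
    have hf : ∀ ω, ∃ h, αH h = 1 ∧ ∀ x, s h x = b ω x := fun ω => hs3 (b ω)
    choose f hf1 hf2 using hf
    obtain ⟨n, hn1, hn2⟩ := hcrt f hf1
    refine ⟨y₀ * n, by rw [map_mul, hn1, mul_one, hy₀], hrep σ _ ?_⟩
    intro ω z
    rw [hb, hmove y₀ (r ω) n hn1, hn2 ω _ rfl, hf2]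
  choose P hP1 hP2 using hex
  let Φ : (U ≃ₐ[Q] U) →* X := MonoidHom.mk' P (by
    intro σ τ
    apply huniq
    · rw [hP1, map_mul, map_mul, hP1, hP1]
    · intro x z
      rw [← hP2, mul_assoc, ← hP2, ← hP2]
      rfl)
  have hΦ1 : ∀ σ, α (Φ σ) = res K L Q U σ := hP1
  have hΦ2 : ∀ σ x z, σ (j x z) = j (Φ σ * x) z := hP2
  have hΦ : ∀ (σ : U ≃ₐ[Q] U) (x₀ : X), α x₀ = res K L Q U σ →
      (∀ ω z, σ (j (r ω) z) = j (x₀ * r ω) z) → Φ σ = x₀ := by
    intro σ x₀ h1 h2
    apply huniq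
    · rw [hΦ1, h1]
    · intro x z
      rw [← hΦ2, hrep σ x₀ h2]
  let R : Subgroup (U ≃ₐ[Q] U) :=
    { carrier := {σ | ∀ y : U, IsAlgebraic K y → σ y = y}
      mul_mem' := by
        intro σ τ h1 h2 y hy
        rw [AlgEquiv.mul_apply, h2 y hy, h1 y hy]
      one_mem' := fun _ _ => rfl
      inv_mem' := by
        intro σ h1 y hy
        have := h1 y hy
        rw [AlgEquiv.aut_inv, AlgEquiv.symm_apply_eq]
        exact this.symm }
  have hstar : ∀ (ω₀ : Ω) (n : X), α n = 1 →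
      (∀ ω ≠ ω₀, ∀ y : X₁, (y : X) = (r ω)⁻¹ * n * r ω → q y = 1) → n ∈ R.map Φ := by
    intro ω₀ n hn hn2
    let h : H := q ⟨(r ω₀)⁻¹ * n * r ω₀, hconj (r ω₀) n hn⟩
    have hh : αH h = 1 := by
      rw [hq]
      change α ((r ω₀)⁻¹ * n * r ω₀) = 1
      rw [map_mul, map_mul, hn, mul_one, ← map_mul, inv_mul_cancel, map_one]
    have hfix : ∀ y : RatFunc L, s h (algebraMap (RatFunc L) F y) = algebraMap (RatFunc L) F y := by
      intro y
      have h3 := ratFunc_hom_ext (((s h : F ≃+* F) : F →+* F).comp (algebraMap (RatFunc L) F))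
        (algebraMap (RatFunc L) F) ?_ ?_
      · exact RingHom.congr_fun h3 y
      · intro l
        simp only [RingHom.comp_apply]
        rw [← IsScalarTower.algebraMap_apply L (RatFunc L) F]
        change s h (algebraMap L F l) = _
        rw [hs1, hh]
        rfl
      · simp only [RingHom.comp_apply]
        exact hs2 h
    let b : F ≃ₐ[RatFunc L] F := AlgEquiv.ofRingEquiv (f := (s h : F ≃+* F)) hfix
    have hb : ∀ z, b z = s h z := fun _ => rfl
    obtain ⟨σ, hσC, hσj⟩ := star_hom (k := L) (K := K) (Q := Q) (U := U) hreg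
      (cc K (tt K Q U c) ω₀) ((algebraMap L U).comp ((α (r ω₀) : L ≃ₐ[K] L) : L →+* L))
      (fun x => L_mem_cc _ _ _) (mem_cc_of_isAlgebraic_cc _ _) (tt K Q U c ω₀)
      (transcendental_cc _ _ hindep) (Q_mem_adjoin c d hd ω₀) (tt_mem_adjoin c ω₀)
      (j (r ω₀)) (fun l => hj1 _ l) (by rw [hj2, hr]) b
    have hres : res K L Q U σ = 1 := by
      ext x
      apply (algebraMap L U).injective
      rw [res_spec, hσC _ (L_mem_cc _ _ _)]
      rfl
    refine ⟨σ, fun y hy => hσC y (mem_cc_of_isAlgebraic _ _ y hy), ?_⟩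
    apply hΦ
    · rw [hn, hres]
    · intro ω z
      have hm := hmove 1 (r ω) n hn z
      rw [one_mul, one_mul] at hm
      rw [hm]
      by_cases hω : ω = ω₀
      · subst hω
        rw [hσj, hb]
      · rw [hn2 ω hω _ rfl, map_one]
        apply hσC
        apply image_mem (k := L) (cc K (tt K Q U c) ω₀) (mem_cc_of_isAlgebraic_cc _ _)
        · intro l
          rw [hj1]
          exact L_mem_cc _ _ _
        · rw [hj2, hr]
          exact mem_cc_of_ne _ _ ω hω
  -- generation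
  have hgen : ∀ (T : Finset Ω) (n : X), α n = 1 →
      (∀ ω ∉ T, ∀ y : X₁, (y : X) = (r ω)⁻¹ * n * r ω → q y = 1) → n ∈ R.map Φ := by
    intro T
    induction T using Finset.induction_on with
    | empty =>
      intro n hn h
      have h1 : n = 1 := hinj n hn (fun ω y hy => h ω (Finset.notMem_empty _) y hy)
      rw [h1]
      exact one_mem _
    | insert ω₀ T hω₀ ih =>
      intro n hn h
      let f : Ω → H := fun ω => if ω = ω₀ then
        q ⟨(r ω₀)⁻¹ * n * r ω₀, hconj (r ω₀) n hn⟩ else 1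
      have hf : ∀ ω, αH (f ω) = 1 := by
        intro ω
        by_cases hω : ω = ω₀
        · simp only [f, if_pos hω]
          rw [hq]
          change α ((r ω₀)⁻¹ * n * r ω₀) = 1
          rw [map_mul, map_mul, hn, mul_one, ← map_mul, inv_mul_cancel, map_one]
        · simp only [f, if_neg hω, map_one]
      obtain ⟨m, hm1, hm2⟩ := hcrt f hf
      have h1 : m ∈ R.map Φ := by
        apply hstar ω₀ m hm1
        intro ω hω y hy
        rw [hm2 ω y hy]
        simp only [f, if_neg hω]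
      have h2 : n * m⁻¹ ∈ R.map Φ := by
        apply ih
        · rw [map_mul, map_inv, hn, hm1, inv_one, mul_one]
        · intro ω hω y hy
          have h3 : y = ⟨(r ω)⁻¹ * n * r ω, hconj (r ω) n hn⟩ *
              (⟨(r ω)⁻¹ * m * r ω, hconj (r ω) m hm1⟩ : X₁)⁻¹ := by
            apply Subtype.ext
            rw [hy]
            change _ = ((r ω)⁻¹ * n * r ω) * ((r ω)⁻¹ * m * r ω)⁻¹
            group
          have hm3 := hm2 ω ⟨(r ω)⁻¹ * m * r ω, hconj (r ω) m hm1⟩ rfl
          rw [h3, map_mul, map_inv, hm3]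
          by_cases hω' : ω = ω₀
          · subst hω'
            simp only [f, if_true, mul_inv_cancel]
          · simp only [f, if_neg hω', inv_one, mul_one]
            exact h ω (by simp [hω', hω]) _ rfl
      have h3 := mul_mem h2 h1
      rwa [inv_mul_cancel_right] at h3
  have hall : ∀ n : X, α n = 1 → n ∈ R.map Φ := fun n hn =>
    hgen Finset.univ n hn (fun ω hω => absurd (Finset.mem_univ ω) hω)
  refine ⟨fun ω => j (r ω), Φ, fun ω l => hj1 _ l, fun ω => by rw [hj2, hr], ?_, hΦ1, ?_, ?_⟩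
  · intro x
    obtain ⟨σ, hσ⟩ := res_surjective (K := K) (L := L) (Q := Q) (U := U) Ω (α x)
    obtain ⟨τ, -, hτ⟩ := hall (x * (Φ σ)⁻¹) (by rw [map_mul, map_inv, hΦ1, hσ, mul_inv_cancel])
    exact ⟨τ * σ, by rw [map_mul, hτ, inv_mul_cancel_right]⟩
  · intro n hn
    obtain ⟨σ, h1, h2⟩ := hall n hn
    exact ⟨σ, h1, h2⟩
  · intro σ h1 h2
    apply hΦ
    · rw [map_one]
      ext x
      apply (algebraMap L U).injective
      rw [res_spec, h2]
      rfl
    · intro ω z
      rw [one_mul, h1]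

end core

end Pool.Agent.TH444.TW
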