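import Pool.Agent.TH444.TW.Orb

/-!
# Rational function fields in two steps
-/

set_option autoImplicit false

namespace Pool.Agent.TH444.TW

open Polynomial
open Pool.Agent.H391R2.T4 (RegSol)

theorem frac_option (K K₁ E : Type) [Field K] [Field K₁] [Field E]
    [Algebra (MvPolynomial Unit K) K₁] [IsFractionRing (MvPolynomial Unit K) K₁] [Algebra K K₁]
    [IsScalarTower K (MvPolynomial Unit K) K₁] [Algebra K₁[X] E] [IsFractionRing K₁[X] E]
    [Algebra K E]
    (hKE : ∀ x : K, algebraMap K E x = algebraMap K₁[X] E (Polynomial.C (algebraMap K K₁ x))) :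
    ∃ (_ : Algebra (MvPolynomial (Option Unit) K) E)
      (_ : IsFractionRing (MvPolynomial (Option Unit) K) E),
      IsScalarTower K (MvPolynomial (Option Unit) K) E := by
  let e : MvPolynomial (Option Unit) K ≃ₐ[K] Polynomial (MvPolynomial Unit K) :=
    MvPolynomial.optionEquivLeft K Unit
  let f : Polynomial (MvPolynomial Unit K) →+* K₁[X] :=
    Polynomial.mapRingHom (algebraMap (MvPolynomial Unit K) K₁)
  let g : K₁[X] →+* E := algebraMap _ _
  have hf : Function.Injective f := by
    change Function.Injective (Polynomial.map _)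
    exact Polynomial.map_injective _ (IsFractionRing.injective (MvPolynomial Unit K) K₁)
  have hg : Function.Injective g := IsFractionRing.injective _ _
  let Φ : MvPolynomial (Option Unit) K →+* E := (g.comp f).comp (e : _ →+* _)
  have hΦ : Function.Injective Φ := (hg.comp hf).comp e.injective
  let a2 : Algebra (MvPolynomial (Option Unit) K) E := Φ.toAlgebra
  have ha2 : ∀ x, algebraMap (MvPolynomial (Option Unit) K) E x = g (f (e x)) := fun _ => rfl
  have hfs : FaithfulSMul (MvPolynomial (Option Unit) K) E :=
    (faithfulSMul_iff_algebraMap_injective _ _).2 hΦ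
  -- clearing denominators
  have hclear : ∀ p : K₁[X], ∃ (q r : MvPolynomial (Option Unit) K), r ≠ 0 ∧
      g p * algebraMap (MvPolynomial (Option Unit) K) E r =
        algebraMap (MvPolynomial (Option Unit) K) E q := by
    intro p
    obtain ⟨b, hb, h⟩ := IsLocalization.integerNormalization_spec
      (nonZeroDivisors (MvPolynomial Unit K)) p
    refine ⟨e.symm (IsLocalization.integerNormalization
      (nonZeroDivisors (MvPolynomial Unit K)) p), e.symm (Polynomial.C b), ?_, ?_⟩
    · intro h0
      rw [map_eq_zero_iff _ e.symm.injective, Polynomial.C_eq_zero] at h0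
      exact nonZeroDivisors.ne_zero hb h0
    · rw [ha2, ha2, AlgEquiv.apply_symm_apply, AlgEquiv.apply_symm_apply, ← map_mul]
      congr 1
      change p * Polynomial.map _ (Polynomial.C b) = Polynomial.map _ _
      rw [h, Polynomial.map_C, mul_comm, ← Polynomial.smul_eq_C_mul]
      exact (algebraMap_smul _ b p)
  have h2 : IsFractionRing (MvPolynomial (Option Unit) K) E := by
    refine IsFractionRing.of_field _ _ fun z => ?_
    obtain ⟨x, y, hy, rfl⟩ := IsFractionRing.div_surjective (A := K₁[X]) z
    obtain ⟨q, r, hr, hq⟩ := hclear x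
    obtain ⟨q', r', hr', hq'⟩ := hclear y
    have hy0 : g y ≠ 0 := by
      rw [map_ne_zero_iff _ hg]
      exact nonZeroDivisors.ne_zero hy
    have hr0 : algebraMap (MvPolynomial (Option Unit) K) E r ≠ 0 := by
      rwa [ne_eq, FaithfulSMul.algebraMap_eq_zero_iff]
    have hr0' : algebraMap (MvPolynomial (Option Unit) K) E r' ≠ 0 := by
      rwa [ne_eq, FaithfulSMul.algebraMap_eq_zero_iff]
    refine ⟨q * r', r * q', ?_⟩
    change g x / g y = _
    rw [map_mul, map_mul, ← hq, ← hq']
    field_simp
  refine ⟨a2, h2, IsScalarTower.of_algebraMap_eq fun x => ?_⟩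
  have h3 : e (algebraMap K (MvPolynomial (Option Unit) K) x) = algebraMap K _ x :=
    e.commutes x
  have h4 : f (algebraMap K (Polynomial (MvPolynomial Unit K)) x) =
      Polynomial.C (algebraMap K K₁ x) := by
    change Polynomial.map _ (Polynomial.C (algebraMap K (MvPolynomial Unit K) x)) = _
    rw [Polynomial.map_C, ← IsScalarTower.algebraMap_apply K (MvPolynomial Unit K) K₁]
  rw [ha2, h3, h4, hKE]

end Pool.Agent.TH444.TW
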