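import Pool.Agent.TH444.TW.Ind

/-!
# The induction theorem for regular solutions of embedding problems
-/

set_option autoImplicit false

open Polynomial

namespace Pool.Agent.TH444.TW

open Pool.Agent.TH444.WC Pool.Agent.H391R2.T4

/-- Induction of regular solutions (rational function field in `[Γ : Δ]` variables, any field). -/
theorem induce_frac_le {K L X H : Type} [Field K] [Field L] [Algebra K L] [FiniteDimensional K L]
    [IsGalois K L] (Δ : Subgroup (L ≃ₐ[K] L)) [Group X] [Group H] [Finite X] [Finite H]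
    (α : X →* (L ≃ₐ[K] L)) (hα : Function.Surjective α) (q : Δ.comap α →* H)
    (αH : H →* (L ≃ₐ[IntermediateField.fixedField Δ] L))
    (hq : ∀ (x : Δ.comap α) (l : L), αH (q x) l = α x l)
    (hinj : ∀ n : X, α n = 1 →
      (∀ (x : X) (y : Δ.comap α), (y : X) = x⁻¹ * n * x → q y = 1) → n = 1)
    (hcard : Nat.card αH.ker ^ Δ.index ≤ Nat.card α.ker)
    (hsol : RegSol (IntermediateField.fixedField Δ) L H αH) :
    SolOver K L X α (FractionRing (MvPolynomial ((L ≃ₐ[K] L) ⧸ Δ) K)) True := by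
  classical
  obtain ⟨F, i1, i2, i3, i4, i5, i6, s, hreg, hs1, hs2, hs3, hs4⟩ := exists_data αH hsol
  let rs : (L ≃ₐ[IntermediateField.fixedField Δ] L) →* (L ≃ₐ[K] L) :=
    AlgEquiv.restrictScalarsHom K
  have hrs : ∀ (g : L ≃ₐ[IntermediateField.fixedField Δ] L) (l : L), rs g l = g l :=
    fun _ _ => rfl
  have hrs1 : ∀ g, rs g = 1 ↔ g = 1 := by
    intro g
    constructor
    · intro h
      ext l
      have h1 := congrArg (fun f : L ≃ₐ[K] L => f l) h
      exact h1
    · rintro rfl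
      exact map_one _
  have hker : (rs.comp αH).ker = αH.ker := by
    ext h
    rw [MonoidHom.mem_ker, MonoidHom.mem_ker, MonoidHom.comp_apply, hrs1]
  let o : (L ≃ₐ[K] L) ⧸ Δ := QuotientGroup.mk 1
  have ho : ∀ g : L ≃ₐ[K] L, g • o = QuotientGroup.mk g := by
    intro g
    change QuotientGroup.mk (g * 1) = _
    rw [mul_one]
  have hr : ∀ ω : (L ≃ₐ[K] L) ⧸ Δ, ∃ x : X, α x • o = ω := by
    intro ω
    obtain ⟨g, rfl⟩ := QuotientGroup.mk_surjective ω
    obtain ⟨x, rfl⟩ := hα g
    exact ⟨x, ho _⟩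
  choose r hr using hr
  have hX₁ : ∀ x : X, x ∈ Δ.comap α ↔ α x • o = o := by
    intro x
    rw [Subgroup.mem_comap, ho]
    change _ ↔ QuotientGroup.mk (α x) = QuotientGroup.mk 1
    rw [eq_comm, QuotientGroup.eq, inv_one, one_mul]
  have hq' : ∀ x : Δ.comap α, (rs.comp αH) (q x) = α x := by
    intro x
    ext l
    exact hq x l
  have hinj' : ∀ n : X, α n = 1 →
      (∀ ω (y : Δ.comap α), (y : X) = (r ω)⁻¹ * n * r ω → q y = 1) → n = 1 := by
    intro n hn h
    apply hinj n hn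
    intro x y hy
    obtain ⟨g, hg⟩ : ∃ g : Δ.comap α, r (α x • o) * g = x := by
      refine ⟨⟨(r (α x • o))⁻¹ * x, ?_⟩, mul_inv_cancel_left _ _⟩
      rw [hX₁, map_mul, map_inv, mul_smul, inv_smul_eq_iff]
      exact (hr _).symm
    have hmem : (r (α x • o))⁻¹ * n * r (α x • o) ∈ Δ.comap α := by
      rw [hX₁, map_mul, map_mul, hn, mul_one, ← map_mul, inv_mul_cancel, map_one, one_smul]
    have h1 : y = g⁻¹ * ⟨_, hmem⟩ * g := by
      apply Subtype.ext
      rw [hy]
      change _ = (g : X)⁻¹ * ((r (α x • o))⁻¹ * n * r (α x • o)) * g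
      have h2 : (g : X) = (r (α x • o))⁻¹ * x := by
        rw [eq_inv_mul_iff_mul_eq]; exact hg
      rw [h2]
      group
    rw [h1, map_mul, map_mul, h _ ⟨_, hmem⟩ rfl, mul_one, ← map_mul, inv_mul_cancel, map_one]
  refine induce_gen α hα o r hr (Δ.comap α) hX₁ q (rs.comp αH) hq' hinj' ?_ s hreg ?_ hs2 ?_ hs4
  · intro f hf
    refine crt α o r hr (Δ.comap α) hX₁ q (rs.comp αH) ?_ hinj' ?_ f hf
    · intro x hx
      rw [hq', hx]
    · rw [hker]
      exact hcard
  · intro h l
    exact hs1 h l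
  · intro b
    obtain ⟨h, h1, h2⟩ := hs3 b
    refine ⟨h, ?_, h2⟩
    rw [MonoidHom.comp_apply, h1, map_one]

/-- Induction of regular solutions (rational function field in `[Γ : Δ]` variables, any field). -/
theorem induce_frac {K L X H : Type} [Field K] [Field L] [Algebra K L] [FiniteDimensional K L]
    [IsGalois K L] (Δ : Subgroup (L ≃ₐ[K] L)) [Group X] [Group H] [Finite X] [Finite H]
    (α : X →* (L ≃ₐ[K] L)) (hα : Function.Surjective α) (q : Δ.comap α →* H)
    (αH : H →* (L ≃ₐ[IntermediateField.fixedField Δ] L))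
    (hq : ∀ (x : Δ.comap α) (l : L), αH (q x) l = α x l)
    (hinj : ∀ n : X, α n = 1 →
      (∀ (x : X) (y : Δ.comap α), (y : X) = x⁻¹ * n * x → q y = 1) → n = 1)
    (hcard : Nat.card α.ker = Nat.card αH.ker ^ Δ.index)
    (hsol : RegSol (IntermediateField.fixedField Δ) L H αH) :
    SolOver K L X α (FractionRing (MvPolynomial ((L ≃ₐ[K] L) ⧸ Δ) K)) True :=
  induce_frac_le Δ α hα q αH hq hinj hcard.symm.le hsol

/-- Induction of regular solutions over an infinite field. -/
theorem induce_le {K L X H : Type} [Field K] [Infinite K] [Field L] [Algebra K L]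
    [FiniteDimensional K L]
    [IsGalois K L] (Δ : Subgroup (L ≃ₐ[K] L)) [Group X] [Group H] [Finite X] [Finite H]
    (α : X →* (L ≃ₐ[K] L)) (hα : Function.Surjective α) (q : Δ.comap α →* H)
    (αH : H →* (L ≃ₐ[IntermediateField.fixedField Δ] L))
    (hq : ∀ (x : Δ.comap α) (l : L), αH (q x) l = α x l)
    (hinj : ∀ n : X, α n = 1 →
      (∀ (x : X) (y : Δ.comap α), (y : X) = x⁻¹ * n * x → q y = 1) → n = 1)
    (hcard : Nat.card αH.ker ^ Δ.index ≤ Nat.card α.ker)
    (hsol : RegSol (IntermediateField.fixedField Δ) L H αH) :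
    RegSol K L X α := by
  obtain ⟨F, i1, i2, i3, i4, i5, i6, i7, i8, γ, hγ, hreg⟩ :=
    induce_frac_le Δ α hα q αH hq hinj hcard hsol
  exact Pool.Agent.W200.IJ.taskA K L X α ((L ≃ₐ[K] L) ⧸ Δ)
    (FractionRing (MvPolynomial ((L ≃ₐ[K] L) ⧸ Δ) K)) F γ hγ (hreg trivial)

/-- Induction of regular solutions over an infinite field. -/
theorem induce {K L X H : Type} [Field K] [Infinite K] [Field L] [Algebra K L]
    [FiniteDimensional K L]
    [IsGalois K L] (Δ : Subgroup (L ≃ₐ[K] L)) [Group X] [Group H] [Finite X] [Finite H]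
    (α : X →* (L ≃ₐ[K] L)) (hα : Function.Surjective α) (q : Δ.comap α →* H)
    (αH : H →* (L ≃ₐ[IntermediateField.fixedField Δ] L))
    (hq : ∀ (x : Δ.comap α) (l : L), αH (q x) l = α x l)
    (hinj : ∀ n : X, α n = 1 →
      (∀ (x : X) (y : Δ.comap α), (y : X) = x⁻¹ * n * x → q y = 1) → n = 1)
    (hcard : Nat.card α.ker = Nat.card αH.ker ^ Δ.index)
    (hsol : RegSol (IntermediateField.fixedField Δ) L H αH) :
    RegSol K L X α :=
  induce_le Δ α hα q αH hq hinj hcard.symm.le hsol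

end Pool.Agent.TH444.TW
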