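import Pool.Agent.TH444.TW.Luro

/-!
# Cyclic groups: Kummer extensions
-/

set_option autoImplicit false

namespace Pool.Agent.TH444.TW

open Pool.Agent.H391R2.T4 (RegSol)

/-- All cyclic groups of order `m` are groups of regular extensions of `K(t)`. -/
def CycReg (K : Type) [Field K] (m : ℕ) : Prop :=
  ∀ (C : Type) [Group C] [IsCyclic C] [Finite C], Nat.card C = m → RegSol K K C 1

theorem cycReg_of_reg {K : Type} [Field K] {m : ℕ} (C : Type) [Group C] [IsCyclic C] [Finite C]
    (hC : Nat.card C = m) (h : RegSol K K C 1) : CycReg K m := by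
  intro C' _ _ _ hC'
  exact regSol_equiv (mulEquivOfCyclicCardEq (hC.trans hC'.symm)) 1 1 (fun g => rfl) h

theorem ratFunc_aut_ext {K : Type} [Field K] (σ τ : RatFunc K ≃ₐ[K] RatFunc K)
    (h : σ RatFunc.X = τ RatFunc.X) : σ = τ := by
  apply AlgEquiv.ext
  intro x
  have h1 : ∀ p : Polynomial K, σ (algebraMap _ _ p) = τ (algebraMap _ _ p) := by
    have h2 : ((σ : RatFunc K →ₐ[K] RatFunc K).comp
        (IsScalarTower.toAlgHom K (Polynomial K) (RatFunc K))) =
        ((τ : RatFunc K →ₐ[K] RatFunc K).comp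
        (IsScalarTower.toAlgHom K (Polynomial K) (RatFunc K))) := by
      apply Polynomial.algHom_ext
      change σ (algebraMap (Polynomial K) (RatFunc K) Polynomial.X) =
        τ (algebraMap (Polynomial K) (RatFunc K) Polynomial.X)
      rw [RatFunc.algebraMap_X, h]
    intro p
    exact DFunLike.congr_fun h2 p
  obtain ⟨p, q, -, rfl⟩ := IsFractionRing.div_surjective (A := Polynomial K) x
  rw [map_div₀, map_div₀, h1, h1]

theorem cycReg_of_aut {K : Type} [Field K] [Infinite K] (σ : RatFunc K ≃ₐ[K] RatFunc K) {m : ℕ}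
    (hm : 0 < m) (hσ : orderOf σ = m) : CycReg K m := by
  have h1 : IsOfFinOrder σ := orderOf_pos_iff.1 (by rw [hσ]; exact hm)
  have hfin : Finite (Subgroup.zpowers σ) := h1.finite_zpowers
  exact cycReg_of_reg (Subgroup.zpowers σ) (by rw [Nat.card_zpowers, hσ])
    (reg_of_subgroup K (Subgroup.zpowers σ))

/-- Kummer extensions. -/
theorem cycReg_kummer (K : Type) [Field K] [Infinite K] (m : ℕ) (hm : 0 < m) (ζ : K)
    (hζ : IsPrimitiveRoot ζ m) : CycReg K m := by
  have hζ0 : ζ ≠ 0 := hζ.ne_zero hm.ne'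
  let _ : Invertible ζ := invertibleOfNonzero hζ0
  let σ₀ : Polynomial K ≃ₐ[K] Polynomial K := Polynomial.algEquivCMulXAddC ζ 0
  let σ : RatFunc K ≃ₐ[K] RatFunc K :=
    IsFractionRing.fieldEquivOfAlgEquiv K (RatFunc K) (RatFunc K) σ₀
  have hσX : σ RatFunc.X = algebraMap K (RatFunc K) ζ * RatFunc.X := by
    rw [← RatFunc.algebraMap_X]
    change IsFractionRing.fieldEquivOfAlgEquiv K (RatFunc K) (RatFunc K) σ₀
      (algebraMap (Polynomial K) (RatFunc K) Polynomial.X) = _
    rw [IsFractionRing.fieldEquivOfAlgEquiv_algebraMap]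
    have h1 : σ₀ Polynomial.X = Polynomial.C ζ * Polynomial.X := by
      simp [σ₀]
    rw [h1, map_mul, RatFunc.algebraMap_X, IsScalarTower.algebraMap_apply K (Polynomial K)]
    rfl
  have hpow : ∀ n : ℕ, (σ ^ n) RatFunc.X = algebraMap K (RatFunc K) (ζ ^ n) * RatFunc.X := by
    intro n
    induction n with
    | zero => simp
    | succ n ih =>
      rw [pow_succ, AlgEquiv.mul_apply, hσX, map_mul, AlgEquiv.commutes, ih, pow_succ, map_mul]
      ring
  refine cycReg_of_aut σ hm ?_
  have hX : (RatFunc.X : RatFunc K) ≠ 0 := RatFunc.X_ne_zero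
  rw [hζ.eq_orderOf]
  refine orderOf_eq_orderOf_iff.2 fun n => ?_
  constructor
  · intro h
    have h1 := hpow n
    rw [h, AlgEquiv.one_apply] at h1
    have h2 : algebraMap K (RatFunc K) (ζ ^ n) = 1 := by
      have h3 : (algebraMap K (RatFunc K) (ζ ^ n) - 1) * RatFunc.X = 0 := by
        rw [sub_mul, ← h1, one_mul, sub_self]
      rcases mul_eq_zero.1 h3 with h4 | h4
      · exact sub_eq_zero.1 h4
      · exact absurd h4 hX
    apply (algebraMap K (RatFunc K)).injective
    rw [h2, map_one]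
  · intro h
    apply ratFunc_aut_ext
    rw [hpow, h, map_one, one_mul, AlgEquiv.one_apply]

end Pool.Agent.TH444.TW
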