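import Pool.Agent.TH444.TW.Step
import Pool.Agent.TH59.WX.UH
import Pool.Agent.W200.IJ.CB

/-!
# Wreath products `G ≀ S_n` as kernels
-/

set_option autoImplicit false

namespace Pool.Agent.TH444.TW

open Pool.Agent.H391R2 Pool.Agent.H391R2.T4
open Pool.Agent.TH15.IGP (StepSol)

/-- The action of `Aut G` on `G ≀ S_n`. -/
def wAct (G : Type) [Group G] (n : ℕ) : MulAut G →* MulAut (Wr G n) :=
  wrAct (MonoidHom.id (MulAut G)) n

theorem wAct_left (G : Type) [Group G] (n : ℕ) (c : MulAut G) (x : Wr G n) (j : Fin n) :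
    (wAct G n c x).left j = c (x.left j) := rfl

theorem wAct_right (G : Type) [Group G] (n : ℕ) (c : MulAut G) (x : Wr G n) :
    (wAct G n c x).right = x.right := rfl

theorem wAct_comp (G : Type) [Group G] (n : ℕ) {Γ : Type} [Group Γ] (β : Γ →* MulAut G) :
    (wAct G n).comp β = wrAct β n := by
  apply MonoidHom.ext
  intro γ
  apply MulEquiv.ext
  intro x
  rfl

theorem loc_wr (G : Type) [Group G] [Finite G] (n : ℕ)
    (hn : ((3 * Nat.card G + 2).factorial) ^ 3 ≤ n) : Loc (wAct G n) := by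
  intro K' M' _ _ _ _ _ _ β
  rw [wAct_comp]
  exact Pool.Agent.TH59.WX.reg_eg K' M' G β n
    ((Pool.Agent.TH59.WX.ub_le_fac _ Nat.card_pos).trans hn)

theorem infinite_of_hilb {K : Type} [Field K] (hK : HilbField K) : Infinite K :=
  Pool.Agent.W200.IJ.infinite_of_hilb K hK

/-- **Hilbertian fields.** -/
theorem wr_step (K : Type) [Field K] (hK : HilbField K) (G : Type) [Group G] [Finite G] (n : ℕ)
    (hn : ((3 * Nat.card G + 2).factorial) ^ 3 ≤ n) {Γ : Type} [Group Γ] [Finite Γ] {k : ℕ}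
    (ψ : Γ →* Wr (MulAut G) k) :
    StepSol K (SemidirectProduct.rightHom : PowSd (wAct G n) ψ →* Γ) := by
  have := infinite_of_hilb hK
  exact pow_step (fun p h => Pool.Agent.TH15.IGP.stepSol_of_reg K hK p h) _ ψ (loc_wr G n hn)

end Pool.Agent.TH444.TW
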