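import Pool.Agent.TH444.TW.Pow

/-!
# One orbit
-/

set_option autoImplicit false

namespace Pool.Agent.TH444.TW

open Pool.Agent.H391R2 Pool.Agent.H391R2.T4

/-- A subgroup acts on `L` over its fixed field. -/
noncomputable def toFix {K L : Type} [Field K] [Field L] [Algebra K L]
    (Δ : Subgroup (L ≃ₐ[K] L)) : Δ →* (L ≃ₐ[IntermediateField.fixedField Δ] L) :=
  (IntermediateField.fixingSubgroupEquiv (IntermediateField.fixedField Δ)).toMonoidHom.comp
    (MonoidHom.codRestrict Δ.subtype _ (by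
      intro δ
      rw [IntermediateField.mem_fixingSubgroup_iff]
      intro x hx
      rw [IntermediateField.mem_fixedField_iff] at hx
      exact hx _ δ.2))

theorem toFix_apply {K L : Type} [Field K] [Field L] [Algebra K L]
    (Δ : Subgroup (L ≃ₐ[K] L)) (δ : Δ) (x : L) : toFix Δ δ x = (δ : L ≃ₐ[K] L) x := rfl

theorem rs_mem {K L : Type} [Field K] [Field L] [Algebra K L] [FiniteDimensional K L]
    (Δ : Subgroup (L ≃ₐ[K] L)) (g : L ≃ₐ[IntermediateField.fixedField Δ] L) :
    (AlgEquiv.restrictScalarsHom K g : L ≃ₐ[K] L) ∈ Δ := by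
  have h1 : (AlgEquiv.restrictScalarsHom K g : L ≃ₐ[K] L) ∈
      (IntermediateField.fixedField Δ).fixingSubgroup := by
    rw [IntermediateField.mem_fixingSubgroup_iff]
    intro x hx
    exact g.commutes ⟨x, hx⟩
  rwa [IntermediateField.fixingSubgroup_fixedField] at h1

theorem rs_toFix {K L : Type} [Field K] [Field L] [Algebra K L]
    (Δ : Subgroup (L ≃ₐ[K] L)) (δ : Δ) :
    (AlgEquiv.restrictScalarsHom K (toFix Δ δ) : L ≃ₐ[K] L) = δ := by
  ext x
  rfl

/-- The local problems have regular solutions. -/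
def Loc {B A : Type} [Group B] [Group A] (θ : B →* MulAut A) : Prop :=
  ∀ (K' M' : Type) [Field K'] [Infinite K'] [Field M'] [Algebra K' M'] [FiniteDimensional K' M']
    [IsGalois K' M'] (β : (M' ≃ₐ[K'] M') →* B),
    RegSol K' M' (A ⋊[θ.comp β] (M' ≃ₐ[K'] M')) SemidirectProduct.rightHom

theorem orbit_reg' {K M Γ B A : Type} [Field K] [Infinite K] [Field M] [Algebra K M]
    [FiniteDimensional K M] [IsGalois K M] [Group Γ] [Group B] [Group A] [Finite Γ] [Finite A]
    {k : ℕ} (θ : B →* MulAut A) (ψ : Γ →* Wr B k) (S S₀ : Finset (Fin k)) (hS : Inv ψ S)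
    (hS₀ : Inv ψ S₀) (hsub : S₀ ⊆ S) (o : Fin k) (ho : o ∈ S) (hoS₀ : o ∉ S₀)
    (horb : ∀ i, i ∈ S → i ∉ S₀ → ∃ γ, (ψ γ).right o = i)
    (ε : (M ≃ₐ[K] M) ≃* XS θ ψ S₀ hS₀)
    (hloc : ∀ (Δ : Subgroup (M ≃ₐ[K] M))
      (β : (M ≃ₐ[IntermediateField.fixedField Δ] M) →* B),
      RegSol (IntermediateField.fixedField Δ) M
        (A ⋊[θ.comp β] (M ≃ₐ[IntermediateField.fixedField Δ] M)) SemidirectProduct.rightHom) :
    RegSol K M (XS θ ψ S hS)
      ((ε.symm : XS θ ψ S₀ hS₀ →* (M ≃ₐ[K] M)).comp (pr θ ψ S S₀ hS hS₀)) := by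
  classical
  have hfin0 : Finite (PowSd θ ψ) := Finite.of_equiv _ SemidirectProduct.equivProd.symm
  let _ : MulAction (XS θ ψ S₀ hS₀) (Fin k) :=
    MulAction.compHom (Fin k) ((SemidirectProduct.rightHom.comp ψ).comp (rt θ ψ S₀ hS₀))
  have hsmul : ∀ (y : XS θ ψ S₀ hS₀) (i : Fin k), y • i = (ψ y.1.right).right i := fun _ _ => rfl
  let T : Subgroup (XS θ ψ S₀ hS₀) := MulAction.stabilizer (XS θ ψ S₀ hS₀) o
  have hT : ∀ y, y ∈ T ↔ (ψ y.1.right).right o = o := fun y => MulAction.mem_stabilizer_iff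
  let Δ : Subgroup (M ≃ₐ[K] M) := T.map (ε.symm : XS θ ψ S₀ hS₀ →* (M ≃ₐ[K] M))
  have hΔ : ∀ y, ε.symm y ∈ Δ ↔ y ∈ T := by
    intro y
    constructor
    · rintro ⟨y', hy', h⟩
      have h2 : y' = y := ε.symm.injective h
      exact h2 ▸ hy'
    · intro h
      exact ⟨y, h, rfl⟩
  have hεΔ : ∀ g ∈ Δ, (ψ (ε g).1.right).right o = o := by
    intro g hg
    rw [← hT, ← hΔ, MulEquiv.symm_apply_apply]
    exact hg
  have hinvo : ∀ γ : Γ, (ψ γ).right o = o → (ψ γ).right⁻¹ o = o := by
    intro γ h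
    conv_lhs => rw [← h]
    exact perm_inv_self _ _
  let β : (M ≃ₐ[IntermediateField.fixedField Δ] M) →* B := MonoidHom.mk'
    (fun g => (ψ (ε (AlgEquiv.restrictScalarsHom K g)).1.right).left o) (by
      intro g g'
      rw [map_mul, map_mul]
      change (ψ ((ε (AlgEquiv.restrictScalarsHom K g)).1.right *
        (ε (AlgEquiv.restrictScalarsHom K g')).1.right)).left o = _
      rw [map_mul, wr_mul_left, hinvo _ (hεΔ _ (rs_mem Δ g))])
  let α : XS θ ψ S hS →* (M ≃ₐ[K] M) :=
    (ε.symm : XS θ ψ S₀ hS₀ →* (M ≃ₐ[K] M)).comp (pr θ ψ S S₀ hS hS₀)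
  have hα : ∀ x, α x = ε.symm (pr θ ψ S S₀ hS hS₀ x) := fun _ => rfl
  have hmem : ∀ x : XS θ ψ S hS, x ∈ Δ.comap α ↔ (ψ x.1.right).right o = o := by
    intro x
    rw [Subgroup.mem_comap, hα, hΔ, hT]
    rfl
  let q : Δ.comap α →* (A ⋊[θ.comp β] (M ≃ₐ[IntermediateField.fixedField Δ] M)) :=
    MonoidHom.mk' (fun x => ⟨x.1.1.left o, toFix Δ ⟨α x.1, x.2⟩⟩) (by
      intro x y
      apply SemidirectProduct.ext
      · rw [SemidirectProduct.mul_left]
        change (x.1.1 * y.1.1).left o = x.1.1.left o *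
          (θ ((ψ (ε (AlgEquiv.restrictScalarsHom K (toFix Δ ⟨α x.1, x.2⟩))).1.right).left o))
            (y.1.1.left o)
        rw [rs_toFix, pow_mul_left, hinvo _ ((hmem x.1).1 x.2)]
        have h : ε (α x.1) = pr θ ψ S S₀ hS hS₀ x.1 := ε.apply_symm_apply _
        change _ = x.1.1.left o * (θ ((ψ (ε (α x.1)).1.right).left o)) (y.1.1.left o)
        rw [h]
        rfl
      · rw [SemidirectProduct.mul_right, ← map_mul]
        change toFix Δ ⟨α (x.1 * y.1), _⟩ = _
        congr 1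
        apply Subtype.ext
        exact map_mul α _ _)
  have hfinX : Finite (XS θ ψ S hS) := inferInstance
  have hfinH : Finite (A ⋊[θ.comp β] (M ≃ₐ[IntermediateField.fixedField Δ] M)) :=
    Finite.of_equiv _ SemidirectProduct.equivProd.symm
  have hα1 : ∀ x, α x = 1 → x.1.right = 1 ∧ ∀ i ∈ S₀, x.1.left i = 1 := by
    intro x hx
    rw [hα] at hx
    have h1 : pr θ ψ S S₀ hS hS₀ x = 1 := (map_eq_one_iff ε.symm ε.symm.injective).1 hx
    have h2 : (pr θ ψ S S₀ hS hS₀ x).1 = 1 := congrArg Subtype.val h1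
    refine ⟨congrArg SemidirectProduct.right h2, fun i hi => ?_⟩
    have h3 := congrFun (congrArg SemidirectProduct.left h2) i
    change (if i ∈ S₀ then x.1.left i else 1) = 1 at h3
    rwa [if_pos hi] at h3
  refine induce_le Δ α ?_ q SemidirectProduct.rightHom ?_ ?_ ?_ (hloc Δ β)
  · intro g
    refine ⟨⟨(ε g).1, fun i hi => (ε g).2 i (fun h => hi (hsub h))⟩, ?_⟩
    rw [hα, MulEquiv.symm_apply_eq]
    apply Subtype.ext
    apply SemidirectProduct.ext
    · funext i
      change (if i ∈ S₀ then (ε g).1.left i else 1) = (ε g).1.left i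
      split_ifs with h
      · rfl
      · exact ((ε g).2 i h).symm
    · rfl
  · intro x l
    rfl
  · intro n hn h
    obtain ⟨h1, h2⟩ := hα1 n hn
    apply Subtype.ext
    apply SemidirectProduct.ext
    · funext i
      by_cases hiS : i ∈ S
      · by_cases hiS₀ : i ∈ S₀
        · exact h2 i hiS₀
        · obtain ⟨γ, hγ⟩ := horb i hiS hiS₀
          have hg : (SemidirectProduct.inr γ : PowSd θ ψ) ∈ XS θ ψ S hS := fun j _ => by
            rw [SemidirectProduct.left_inr]; rfl
          let g : XS θ ψ S hS := ⟨SemidirectProduct.inr γ, hg⟩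
          have h3 : g⁻¹ * n * g ∈ Δ.comap α := by
            rw [Subgroup.mem_comap, map_mul, map_mul, hn, mul_one, ← map_mul, inv_mul_cancel,
              map_one]
            exact one_mem _
          have h4 := congrArg SemidirectProduct.left (h g ⟨_, h3⟩ rfl)
          have h5 : (((SemidirectProduct.inr γ : PowSd θ ψ)⁻¹ * n.1) *
              SemidirectProduct.inr γ).left o = 1 := h4
          rw [pow_mul_left, pow_mul_left, SemidirectProduct.left_inr, ← map_inv,
            SemidirectProduct.left_inr, SemidirectProduct.right_inr, Pi.one_apply, Pi.one_apply,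
            map_one, one_mul, mul_one] at h5
          have h6 := (map_eq_one_iff _ (MulEquiv.injective _)).1 h5
          rw [map_inv, SemidirectProduct.inv_right, inv_inv, hγ] at h6
          exact h6
      · exact n.2 i hiS
    · exact h1
  · have hidx : Δ.index = (MulAction.orbit (XS θ ψ S₀ hS₀) o).ncard := by
      change (T.map (ε.symm : XS θ ψ S₀ hS₀ →* (M ≃ₐ[K] M))).index = _
      rw [Subgroup.index_map_equiv]
      exact MulAction.index_stabilizer _ _
    have hsubO : MulAction.orbit (XS θ ψ S₀ hS₀) o ⊆ {i | i ∈ S ∧ i ∉ S₀} := by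
      rintro _ ⟨y, rfl⟩
      change (ψ y.1.right).right o ∈ S ∧ (ψ y.1.right).right o ∉ S₀
      rw [hS, hS₀]
      exact ⟨ho, hoS₀⟩
    have hcardH : Nat.card (SemidirectProduct.rightHom :
        (A ⋊[θ.comp β] (M ≃ₐ[IntermediateField.fixedField Δ] M)) →* _).ker = Nat.card A := by
      apply Nat.card_congr
      exact
        { toFun := fun x => x.1.left
          invFun := fun f => ⟨SemidirectProduct.inl f, by
            rw [MonoidHom.mem_ker, SemidirectProduct.rightHom_inl]⟩
          left_inv := fun x => by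
            apply Subtype.ext
            apply SemidirectProduct.ext
            · rfl
            · exact (x.2 : x.1.right = 1).symm
          right_inv := fun f => rfl }
    rw [hcardH]
    have h1 : Nat.card A ^ Δ.index ≤ Nat.card A ^ Nat.card {i : Fin k | i ∈ S ∧ i ∉ S₀} := by
      apply Nat.pow_le_pow_right Nat.card_pos
      rw [hidx, Nat.card_coe_set_eq]
      exact Set.ncard_le_ncard hsubO
    refine h1.trans ?_
    rw [← Nat.card_fun]
    let J : ({i : Fin k | i ∈ S ∧ i ∉ S₀} → A) → α.ker := fun f =>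
      ⟨⟨SemidirectProduct.inl fun i => if h : i ∈ S ∧ i ∉ S₀ then f ⟨i, h⟩ else 1, fun i hi => by
          rw [SemidirectProduct.left_inl]
          exact dif_neg fun h => hi h.1⟩, by
        rw [MonoidHom.mem_ker, hα, map_eq_one_iff ε.symm ε.symm.injective]
        apply Subtype.ext
        apply SemidirectProduct.ext
        · funext i
          change (if i ∈ S₀ then (if h : i ∈ S ∧ i ∉ S₀ then f ⟨i, h⟩ else 1) else 1) = 1
          split_ifs with h2 h3
          · exact absurd h2 h3.2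
          · rfl
          · rfl
        · rfl⟩
    apply Nat.card_le_card_of_injective J
    intro f f' hff
    funext i
    have h2 : (J f).1.1.left i.1 = (J f').1.1.left i.1 := by rw [hff]
    have h3 : ∀ f, (J f).1.1.left i.1 = f i := fun f => dif_pos i.2
    rw [h3, h3] at h2
    exact h2

theorem orbit_reg {K M Γ B A : Type} [Field K] [Infinite K] [Field M] [Algebra K M]
    [FiniteDimensional K M] [IsGalois K M] [Group Γ] [Group B] [Group A] [Finite Γ] [Finite A]
    {k : ℕ} (θ : B →* MulAut A) (ψ : Γ →* Wr B k) (S S₀ : Finset (Fin k)) (hS : Inv ψ S)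
    (hS₀ : Inv ψ S₀) (hsub : S₀ ⊆ S) (o : Fin k) (ho : o ∈ S) (hoS₀ : o ∉ S₀)
    (horb : ∀ i, i ∈ S → i ∉ S₀ → ∃ γ, (ψ γ).right o = i)
    (ε : (M ≃ₐ[K] M) ≃* XS θ ψ S₀ hS₀) (hloc : Loc θ) :
    RegSol K M (XS θ ψ S hS)
      ((ε.symm : XS θ ψ S₀ hS₀ →* (M ≃ₐ[K] M)).comp (pr θ ψ S S₀ hS hS₀)) := by
  have hinf : ∀ E : IntermediateField K M, Infinite E := fun E =>
    Infinite.of_injective _ (algebraMap K E).injective
  exact orbit_reg' θ ψ S S₀ hS hS₀ hsub o ho hoS₀ horb ε fun Δ β => hloc _ _ β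

end Pool.Agent.TH444.TW
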