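import Pool.Agent.TH444.TW.Frac2
import Pool.Agent.W200.IJ.BC

/-!
# Composition of regular solutions
-/

set_option autoImplicit false

namespace Pool.Agent.TH444.TW

open Polynomial
open Pool.Agent.H391R2.T4 (RegSol)

/-- Transport of a solution over another field of rational functions (in one or more variables). -/
theorem reg_comp_aux (K L K₁ E M F X : Type) [Field K] [Infinite K] [Field L] [Algebra K L]
    [FiniteDimensional K L] [IsGalois K L] [Group X] [Finite X] (α : X →* (L ≃ₐ[K] L))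
    [Field K₁] [Field E]
    [Algebra (MvPolynomial Unit K) K₁] [IsFractionRing (MvPolynomial Unit K) K₁] [Algebra K K₁]
    [IsScalarTower K (MvPolynomial Unit K) K₁] [Algebra K₁[X] E] [IsFractionRing K₁[X] E]
    [Algebra K₁ E] [IsScalarTower K₁ K₁[X] E]
    [Field M] [Algebra K₁ M] [Algebra L M] [Algebra K M] [IsScalarTower K K₁ M]
    [IsScalarTower K L M] [FiniteDimensional K₁ M]
    [Field F] [Algebra E F] [Algebra M F] [Algebra K₁ F] [IsScalarTower K₁ E F]
    [IsScalarTower K₁ M F] [FiniteDimensional E F] [IsGalois E F] (γ : (F ≃ₐ[E] F) ≃* X)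
    (hγ : ∀ (σ : F ≃ₐ[E] F) (x : L), σ (algebraMap M F (algebraMap L M x)) =
      algebraMap M F (algebraMap L M (α (γ σ) x)))
    (h1 : ∀ y : M, IsAlgebraic L y → y ∈ Set.range (algebraMap L M))
    (h2 : ∀ y : F, IsAlgebraic M y → y ∈ Set.range (algebraMap M F)) :
    RegSol K L X α := by
  let aKE : Algebra K E := ((algebraMap K₁ E).comp (algebraMap K K₁)).toAlgebra
  obtain ⟨aME, hfr, hT⟩ := frac_option K K₁ E (fun x => by
    change algebraMap K₁ E (algebraMap K K₁ x) = _
    rw [IsScalarTower.algebraMap_apply K₁ K₁[X] E]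
    rfl)
  let aKF : Algebra K F := ((algebraMap E F).comp (algebraMap K E)).toAlgebra
  let aLF : Algebra L F := ((algebraMap M F).comp (algebraMap L M)).toAlgebra
  have t1 : IsScalarTower K E F := IsScalarTower.of_algebraMap_eq fun x => rfl
  have t3 : IsScalarTower L M F := IsScalarTower.of_algebraMap_eq fun x => rfl
  have hKF : ∀ x : K, algebraMap K F x = algebraMap M F (algebraMap K M x) := by
    intro x
    change algebraMap E F (algebraMap K₁ E (algebraMap K K₁ x)) = _
    rw [← IsScalarTower.algebraMap_apply K₁ E F, IsScalarTower.algebraMap_apply K₁ M F,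
      ← IsScalarTower.algebraMap_apply K K₁ M]
  have t2 : IsScalarTower K L F := IsScalarTower.of_algebraMap_eq fun x => by
    rw [hKF, IsScalarTower.algebraMap_apply K L M]
    rfl
  refine Pool.Agent.W200.IJ.taskA K L X α (Option Unit) E F γ hγ ?_
  intro y hy
  obtain ⟨z, rfl⟩ := h2 y (hy.extendScalars (algebraMap L M).injective)
  have h3 : IsAlgebraic L z := (isAlgebraic_algebraMap_iff (algebraMap M F).injective).1 hy
  obtain ⟨x, rfl⟩ := h1 z h3
  exact ⟨x, rfl⟩

/-- Composition of regular solutions. -/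
theorem reg_comp (K L X₁ X : Type) [Field K] [Infinite K] [Field L] [Algebra K L]
    [FiniteDimensional K L] [IsGalois K L] [Group X₁] [Group X] [Finite X]
    (α₁ : X₁ →* (L ≃ₐ[K] L)) (p : X →* X₁) (h₁ : RegSol K L X₁ α₁)
    (h : ∀ (M : Type) [Field M] [Algebra (RatFunc K) M] [FiniteDimensional (RatFunc K) M]
      [IsGalois (RatFunc K) M] (γ₁ : (M ≃ₐ[RatFunc K] M) ≃* X₁),
      RegSol (RatFunc K) M X (γ₁.symm.toMonoidHom.comp p)) :
    RegSol K L X (α₁.comp p) := by
  obtain ⟨M, i1, i2, i3, i4, i5, i6, i7, i8, γ₁, hγ₁, hreg₁⟩ := h₁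
  obtain ⟨F, j1, j2, j3, j4, j5, j6, j7, j8, γ, hγ, hreg⟩ := h M γ₁
  obtain ⟨a1, h1, t1⟩ := Pool.Agent.TH15.IGP.ratFunc_unit K
  refine reg_comp_aux K L (RatFunc K) (RatFunc (RatFunc K)) M F X (α₁.comp p) γ ?_ hreg₁ hreg
  intro σ x
  rw [hγ]
  change algebraMap M F ((γ₁.symm (p (γ σ))) (algebraMap L M x)) = _
  rw [hγ₁, MulEquiv.apply_symm_apply]
  rfl

end Pool.Agent.TH444.TW
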