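import Pool.Agent.TH444.TW.Orb

/-!
# Steps: embedding problems with kernel `A^k`, over all fields with the specialisation property
-/

set_option autoImplicit false

namespace Pool.Agent.TH444.TW

open Pool.Agent.H391R2 Pool.Agent.H391R2.T4
open Pool.Agent.TH15.IGP (StepSol)

theorem restrictNormal_trans {K L F F' : Type} [Field K] [Field L] [Field F] [Field F']
    [Algebra K L] [Algebra K F] [Algebra K F'] [Algebra L F] [Algebra F F'] [Algebra L F']
    [IsScalarTower K L F] [IsScalarTower K F F'] [IsScalarTower K L F'] [IsScalarTower L F F']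
    [Normal K L] [Normal K F] (σ : F' ≃ₐ[K] F') :
    (σ.restrictNormal F).restrictNormal L = σ.restrictNormal L := by
  apply AlgEquiv.ext
  intro x
  apply (algebraMap L F').injective
  rw [AlgEquiv.restrictNormal_commutes σ L x, IsScalarTower.algebraMap_apply L F F',
    AlgEquiv.restrictNormal_commutes (σ.restrictNormal F) L x,
    AlgEquiv.restrictNormal_commutes σ F, ← IsScalarTower.algebraMap_apply L F F']

theorem StepSol.comp {K : Type} [Field K] {W W' W'' : Type} [Group W] [Group W'] [Group W'']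
    {p : W' →* W} {p' : W'' →* W'} (h : StepSol K p) (h' : StepSol K p') :
    StepSol K (p.comp p') := by
  intro L _ _ _ _ ε
  obtain ⟨F, i1, i2, i3, i4, i5, i6, γ, hγ⟩ := h L ε
  obtain ⟨F', j1, j2, j3, j4, j5, j6, γ', hγ'⟩ := h' F γ
  let aLF' : Algebra L F' := ((algebraMap F F').comp (algebraMap L F)).toAlgebra
  have hLFF' : IsScalarTower L F F' := IsScalarTower.of_algebraMap_eq fun _ => rfl
  have hKLF' : IsScalarTower K L F' := IsScalarTower.of_algebraMap_eq fun x => by
    rw [IsScalarTower.algebraMap_apply K F F', IsScalarTower.algebraMap_apply K L F]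
    rfl
  refine ⟨F', j1, j2, aLF', hKLF', j5, j6, γ', fun σ => ?_⟩
  rw [MonoidHom.comp_apply, hγ', hγ, restrictNormal_trans]

theorem StepSol.of_equiv {K : Type} [Field K] {W W' : Type} [Group W] [Group W']
    (e : W' ≃* W) : StepSol K (e : W' →* W) := by
  intro L _ _ _ _ ε
  refine ⟨L, inferInstance, inferInstance, Algebra.id L, inferInstance, inferInstance,
    inferInstance, ε.trans e.symm, fun σ => ?_⟩
  change e (e.symm (ε σ)) = _
  rw [MulEquiv.apply_symm_apply]
  congr 1
  apply AlgEquiv.ext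
  intro x
  exact (AlgEquiv.restrictNormal_commutes σ L x).symm

theorem StepSol.congr {K : Type} [Field K] {W W' W'' : Type} [Group W] [Group W'] [Group W'']
    {p : W'' →* W} {q : W' →* W} (h : StepSol K p) (e : W' ≃* W'') (hq : ∀ x, p (e x) = q x) :
    StepSol K q := by
  have h1 : p.comp (e : W' →* W'') = q := MonoidHom.ext hq
  rw [← h1]
  exact StepSol.comp h (StepSol.of_equiv e)

/-- Removing an orbit. -/
theorem orbit_step {Γ B : Type} [Group Γ] [Group B] {k : ℕ} (ψ : Γ →* Wr B k)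
    (S : Finset (Fin k)) (hS : Inv ψ S) (o : Fin k) (ho : o ∈ S) :
    ∃ S₀ : Finset (Fin k), Inv ψ S₀ ∧ S₀ ⊂ S ∧ o ∉ S₀ ∧
      ∀ i, i ∈ S → i ∉ S₀ → ∃ γ, (ψ γ).right o = i := by
  classical
  let S₀ : Finset (Fin k) := S.filter fun i => ¬ ∃ γ, (ψ γ).right o = i
  have hmem : ∀ i, i ∈ S₀ ↔ i ∈ S ∧ ¬ ∃ γ, (ψ γ).right o = i := fun i => Finset.mem_filter
  refine ⟨S₀, ?_, ?_, ?_, ?_⟩
  · intro γ i
    rw [hmem, hmem, hS]
    refine and_congr_right fun _ => not_congr ⟨?_, ?_⟩
    · rintro ⟨δ, h⟩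
      refine ⟨γ⁻¹ * δ, ?_⟩
      rw [map_mul, wr_mul_right, map_inv, SemidirectProduct.inv_right]
      change (ψ γ).right⁻¹ ((ψ δ).right o) = i
      rw [h, perm_inv_self]
    · rintro ⟨δ, h⟩
      refine ⟨γ * δ, ?_⟩
      rw [map_mul, wr_mul_right]
      change (ψ γ).right ((ψ δ).right o) = _
      rw [h]
  · rw [Finset.ssubset_iff_of_subset (Finset.filter_subset _ _)]
    refine ⟨o, ho, ?_⟩
    rw [hmem]
    rintro ⟨-, h⟩
    refine h ⟨1, ?_⟩
    rw [map_one]
    rfl
  · rw [hmem]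
    rintro ⟨-, h⟩
    refine h ⟨1, ?_⟩
    rw [map_one]
    rfl
  · intro i hi hi₀
    by_contra h
    exact hi₀ ((hmem i).2 ⟨hi, h⟩)

/-- The trivial set of coordinates. -/
noncomputable def rtEmpty {Γ B A : Type} [Group Γ] [Group B] [Group A] {k : ℕ}
    (θ : B →* MulAut A) (ψ : Γ →* Wr B k) (h : Inv ψ ∅) : XS θ ψ ∅ h ≃* Γ :=
  MulEquiv.ofBijective (rt θ ψ ∅ h) ⟨fun x y hxy => by
    apply Subtype.ext
    apply SemidirectProduct.ext
    · funext i
      rw [x.2 i (Finset.notMem_empty i), y.2 i (Finset.notMem_empty i)]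
    · exact hxy, fun γ => ⟨⟨SemidirectProduct.inr γ, fun i _ => by
      rw [SemidirectProduct.left_inr]; rfl⟩, rfl⟩⟩

/-- All coordinates. -/
noncomputable def xsUniv {Γ B A : Type} [Group Γ] [Group B] [Group A] {k : ℕ}
    (θ : B →* MulAut A) (ψ : Γ →* Wr B k) (h : Inv ψ Finset.univ) :
    PowSd θ ψ ≃* XS θ ψ Finset.univ h :=
  MulEquiv.ofBijective (MonoidHom.codRestrict (MonoidHom.id _) _ fun x i hi =>
    absurd (Finset.mem_univ i) hi)
  ⟨fun x y hxy => congrArg Subtype.val hxy, fun x => ⟨x.1, rfl⟩⟩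

theorem xs_step {K : Type} [Field K] [Infinite K]
    (hreg : ∀ {W W' : Type} [Group W] [Group W'] [Finite W'] (p : W' →* W),
      (∀ (L : Type) [Field L] [Algebra K L] [FiniteDimensional K L] [IsGalois K L]
      (ε : (L ≃ₐ[K] L) ≃* W), RegSol K L W' (ε.symm.toMonoidHom.comp p)) → StepSol K p)
    {Γ B A : Type} [Group Γ] [Group B] [Group A] [Finite Γ] [Finite A]
    {k : ℕ} (θ : B →* MulAut A) (ψ : Γ →* Wr B k) (hloc : Loc θ) :
    ∀ (m : ℕ) (S : Finset (Fin k)) (hS : Inv ψ S), S.card = m → StepSol K (rt θ ψ S hS) := by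
  classical
  have hfin0 : Finite (PowSd θ ψ) := Finite.of_equiv _ SemidirectProduct.equivProd.symm
  intro m
  induction m using Nat.strong_induction_on with
  | _ m ih =>
    intro S hS hm
    rcases S.eq_empty_or_nonempty with h | ⟨o, ho⟩
    · subst h
      exact StepSol.of_equiv (rtEmpty θ ψ hS)
    · obtain ⟨S₀, hS₀, hlt, ho₀, horb⟩ := orbit_step ψ S hS o ho
      have h1 := ih S₀.card (by rw [← hm]; exact Finset.card_lt_card hlt) S₀ hS₀ rfl
      rw [← rt_pr θ ψ S S₀ hS hS₀]
      refine StepSol.comp h1 (hreg _ ?_)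
      intro L _ _ _ _ ε
      exact orbit_reg θ ψ S S₀ hS hS₀ hlt.1 o ho ho₀ horb ε hloc

/-- **Embedding problems with kernel `A^k`**: every embedding problem over `K` given by the
projection `A^k ⋊ Γ → Γ`, where the finite group `Γ` acts through `Γ → B ≀ S_k`, has a proper
solution. -/
theorem pow_step {K : Type} [Field K] [Infinite K]
    (hreg : ∀ {W W' : Type} [Group W] [Group W'] [Finite W'] (p : W' →* W),
      (∀ (L : Type) [Field L] [Algebra K L] [FiniteDimensional K L] [IsGalois K L]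
      (ε : (L ≃ₐ[K] L) ≃* W), RegSol K L W' (ε.symm.toMonoidHom.comp p)) → StepSol K p)
    {Γ B A : Type} [Group Γ] [Group B] [Group A] [Finite Γ] [Finite A]
    {k : ℕ} (θ : B →* MulAut A) (ψ : Γ →* Wr B k) (hloc : Loc θ) :
    StepSol K (SemidirectProduct.rightHom : PowSd θ ψ →* Γ) := by
  have hS : Inv ψ Finset.univ := fun γ i => by
    simp only [Finset.mem_univ]
  exact StepSol.comp (xs_step hreg θ ψ hloc _ Finset.univ hS rfl)
    (StepSol.of_equiv (xsUniv θ ψ hS))

end Pool.Agent.TH444.TW
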